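import Pool.Agent.N65.TK.Defs
set_option autoImplicit false

/-!
The element `alpha` is a cocycle.
-/

namespace Pool.Agent.N65.TK

open scoped TensorProduct WithZero

section alt

variable {V W : Type*} [AddCommGroup V] [Module ℚ V] [AddCommGroup W] [Module ℚ W]

theorem alt_key (φ : V [⋀^Fin 3]→ₗ[ℚ] W) (e u w : V) :
    φ ![e, u, w] = ((φ.curryLeft e).curryLeft u).curryLeft w ![] := rfl

theorem alt_add1 (φ : V [⋀^Fin 3]→ₗ[ℚ] W) (e e' u w : V) :
    φ ![e + e', u, w] = φ ![e, u, w] + φ ![e', u, w] := by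
  simp only [alt_key, map_add, AlternatingMap.add_apply, AlternatingMap.curryLeft_add,
    LinearMap.add_apply]

theorem alt_smul1 (φ : V [⋀^Fin 3]→ₗ[ℚ] W) (a : ℚ) (e u w : V) :
    φ ![a • e, u, w] = a • φ ![e, u, w] := by
  simp only [alt_key, map_smul, AlternatingMap.smul_apply, AlternatingMap.curryLeft_smul,
    LinearMap.smul_apply]

theorem alt_add2 (φ : V [⋀^Fin 3]→ₗ[ℚ] W) (e u u' w : V) :
    φ ![e, u + u', w] = φ ![e, u, w] + φ ![e, u', w] := by
  simp only [alt_key, map_add, AlternatingMap.add_apply, AlternatingMap.curryLeft_add,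
    LinearMap.add_apply]

theorem alt_smul2 (φ : V [⋀^Fin 3]→ₗ[ℚ] W) (a : ℚ) (e u w : V) :
    φ ![e, a • u, w] = a • φ ![e, u, w] := by
  simp only [alt_key, map_smul, AlternatingMap.smul_apply, AlternatingMap.curryLeft_smul,
    LinearMap.smul_apply]

theorem alt_add3 (φ : V [⋀^Fin 3]→ₗ[ℚ] W) (e u w w' : V) :
    φ ![e, u, w + w'] = φ ![e, u, w] + φ ![e, u, w'] := by
  simp only [alt_key, map_add, AlternatingMap.add_apply]

theorem alt_smul3 (φ : V [⋀^Fin 3]→ₗ[ℚ] W) (a : ℚ) (e u w : V) :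
    φ ![e, u, a • w] = a • φ ![e, u, w] := by
  simp only [alt_key, map_smul, AlternatingMap.smul_apply]

theorem alt_eq23 (φ : V [⋀^Fin 3]→ₗ[ℚ] W) (e u : V) : φ ![e, u, u] = 0 :=
  φ.map_eq_zero_of_eq _ (i := 1) (j := 2) rfl (by decide)

theorem alt_eq12 (φ : V [⋀^Fin 3]→ₗ[ℚ] W) (e u : V) : φ ![e, e, u] = 0 :=
  φ.map_eq_zero_of_eq _ (i := 0) (j := 1) rfl (by decide)

theorem alt_eq13 (φ : V [⋀^Fin 3]→ₗ[ℚ] W) (e u : V) : φ ![e, u, e] = 0 :=
  φ.map_eq_zero_of_eq _ (i := 0) (j := 2) rfl (by decide)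

theorem alt_swap23 (φ : V [⋀^Fin 3]→ₗ[ℚ] W) (e u w : V) : φ ![e, w, u] = -φ ![e, u, w] := by
  have h := alt_eq23 φ e (u + w)
  rw [alt_add2, alt_add3, alt_add3, alt_eq23, alt_eq23, zero_add, add_zero] at h
  exact eq_neg_of_add_eq_zero_right h

theorem alt_det (φ : V [⋀^Fin 3]→ₗ[ℚ] W) (e X Y : V) (a b c d : ℚ) :
    φ ![e, a • X + b • Y, c • X + d • Y] = (a * d - b * c) • φ ![e, X, Y] := by
  rw [alt_add2, alt_add3, alt_add3, alt_smul2, alt_smul2, alt_smul2, alt_smul2, alt_smul3,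
    alt_smul3, alt_smul3, alt_smul3, alt_eq23, alt_eq23, alt_swap23 φ e X Y]
  module

theorem alt_zero (φ : V [⋀^Fin 3]→ₗ[ℚ] W) (X Y : V) (a b : ℚ) :
    φ ![a • X + b • Y, X, Y] = 0 := by
  rw [alt_add1, alt_smul1, alt_smul1, alt_eq12, alt_eq13, smul_zero, smul_zero, add_zero]

theorem alt_sum1 (φ : V [⋀^Fin 3]→ₗ[ℚ] W) {ι : Type*} (t : Finset ι) (e : ι → V) (u w : V) :
    φ ![∑ i ∈ t, e i, u, w] = ∑ i ∈ t, φ ![e i, u, w] := by
  classical
  induction t using Finset.induction_on with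
  | empty =>
    have h := alt_smul1 φ 0 0 u w
    rw [zero_smul, zero_smul] at h
    simpa using h
  | insert i t hi ih => rw [Finset.sum_insert hi, Finset.sum_insert hi, alt_add1, ih]

end alt

section units

variable {A : Type*} [CommRing A]

theorem tu_mul (a b : Aˣ) : tu (a * b) = tu a + tu b :=
  TensorProduct.tmul_add (R := ℤ) (1 : ℚ) (Additive.ofMul a) (Additive.ofMul b)

theorem tu_one : tu (1 : Aˣ) = 0 :=
  TensorProduct.tmul_zero (R := ℤ) (Additive Aˣ) (1 : ℚ)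

theorem tu_inv (a : Aˣ) : tu a⁻¹ = -tu a := by
  have h := tu_mul a a⁻¹
  rw [mul_inv_cancel, tu_one] at h
  exact (neg_eq_of_add_eq_zero_right h.symm).symm

theorem tu_zpow (a : Aˣ) (n : ℤ) : tu (a ^ n) = (n : ℚ) • tu a := by
  have h : (tu (a ^ n) : UQ A) = n • tu a := by
    induction n using Int.induction_on with
    | zero => rw [zpow_zero, tu_one, zero_smul]
    | succ i ih => rw [zpow_add_one, tu_mul, ih, add_smul, one_smul]
    | pred i ih => rw [zpow_sub_one, tu_mul, ih, tu_inv, sub_smul, one_smul, sub_eq_add_neg]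
  rw [h]
  exact (Int.cast_smul_eq_zsmul ℚ n _).symm

theorem tu_pow (a : Aˣ) (n : ℕ) : tu (a ^ n) = (n : ℚ) • tu a := by
  have := tu_zpow a n
  simpa using this

theorem tu_torsion {a : Aˣ} {N : ℕ} (hN : 0 < N) (h : a ^ N = 1) : tu a = 0 := by
  have h1 := tu_pow a N
  rw [h, tu_one] at h1
  have hN' : (N : ℚ) ≠ 0 := by exact_mod_cast hN.ne'
  exact (smul_eq_zero.1 h1.symm).resolve_left hN'

theorem tu_prod {ι : Type*} (t : Finset ι) (a : ι → Aˣ) : tu (∏ i ∈ t, a i) = ∑ i ∈ t, tu (a i) := by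
  classical
  induction t using Finset.induction_on with
  | empty => simp [tu_one]
  | insert i t hi ih => rw [Finset.prod_insert hi, Finset.sum_insert hi, tu_mul, ih]

theorem tu_neg_one : tu (-1 : Aˣ) = 0 := tu_torsion (N := 2) (by norm_num) (by simp)

end units

section curve

variable {K : Type*} [Field K] {r : ℕ} {C : Dat K r}

theorem mo_mul (a b : Kˣ) (k l k' l' : ℤ) : mo (a * b) (k + k') (l + l') = mo a k l * mo b k' l' := by
  ext1
  show AddMonoidAlgebra.single (k + k', l + l') ((a * b : Kˣ) : K) =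
    AddMonoidAlgebra.single (k, l) (a : K) * AddMonoidAlgebra.single (k', l') (b : K)
  rw [AddMonoidAlgebra.single_mul_single]
  rfl

theorem mn_mul (a b : Kˣ) (k l k' l' : ℤ) :
    C.mn (a * b) (k + k') (l + l') = C.mn a k l * C.mn b k' l' := by
  unfold Dat.mn
  rw [mo_mul, map_mul]

theorem mn_one : C.mn 1 0 0 = 1 := by
  have h := mn_mul (C := C) 1 1 0 0 0 0
  rw [mul_one, add_zero] at h
  exact (mul_eq_left.1 h.symm)

theorem mn_zpow (a : Kˣ) (k l : ℤ) (n : ℤ) : C.mn a k l ^ n = C.mn (a ^ n) (n * k) (n * l) := by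
  induction n using Int.induction_on with
  | zero => simp [mn_one]
  | succ i ih =>
    rw [zpow_add_one, ih, ← mn_mul, ← zpow_add_one]
    congr 1 <;> ring
  | pred i ih =>
    rw [zpow_sub_one, ih, mul_inv_eq_iff_eq_mul, ← mn_mul, ← zpow_add_one]
    congr 1
    · congr 1
      ring
    · ring
    · ring

/-- `x` -/
noncomputable def cx (C : Dat K r) : C.Ringˣ := C.mn 1 1 0

/-- `y` -/
noncomputable def cy (C : Dat K r) : C.Ringˣ := C.mn 1 0 1

theorem mn_eq (a : Kˣ) (k l : ℤ) : C.mn a k l = C.mn a 0 0 * (cx C ^ k * cy C ^ l) := by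
  unfold cx cy
  rw [mn_zpow, mn_zpow, ← mn_mul, ← mn_mul]
  congr 1
  · simp
  · ring
  · ring

theorem tu_mn {a : Kˣ} {N : ℕ} (hN : 0 < N) (ha : a ^ N = 1) (k l : ℤ) :
    tu (C.mn a k l) = (k : ℚ) • tu (cx C) + (l : ℚ) • tu (cy C) := by
  have h0 : tu (C.mn a 0 0) = 0 := by
    refine tu_torsion hN ?_
    have := mn_zpow (C := C) a 0 0 N
    rw [zpow_natCast, zpow_natCast, ha, mul_zero, mn_one] at this
    exact this
  rw [mn_eq, tu_mul, h0, zero_add, tu_mul, tu_zpow, tu_zpow]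

theorem tu_co_inv {A : Type*} [CommRing A] (f : Pt A) {g : Aˣ}
    (hg : (g : A) = 1 - ((f.1⁻¹ : Aˣ) : A)) : tu g = tu f.co - tu f.1 := by
  have h : g = -1 * f.co * f.1⁻¹ := by
    ext1
    rw [hg, Units.val_mul, Units.val_mul]
    show _ = ((-1 : Aˣ) : A) * (1 - (f.1 : A)) * ((f.1⁻¹ : Aˣ) : A)
    rw [Units.val_neg, Units.val_one]
    have := f.1.mul_inv
    linear_combination -this
  rw [h, tu_mul, tu_mul, tu_neg_one, tu_inv, zero_add, sub_eq_add_neg]

theorem sum_rel (hC : C.Admissible) :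
    ∑ j, (C.n j : ℚ) • tu (Dat.pt hC j).co =
      (1 / 2 : ℚ) • ∑ j, (C.n j : ℚ) • ((C.k j : ℚ) • tu (cx C) + (C.l j : ℚ) • tu (cy C)) := by
  have h1 : ∀ j, IsUnit (1 - ((((Dat.pt hC j).1)⁻¹ : C.Ringˣ) : C.Ring)) := by
    intro j
    have h1 := C.prod_eq_one
    rw [← Finset.mul_prod_erase Finset.univ _ (Finset.mem_univ j)] at h1
    have h2 := IsUnit.of_mul_eq_one _ h1
    rw [isUnit_pow_iff (hC.pos j).ne'] at h2
    exact isUnit_of_mul_isUnit_right h2
  choose g hg using h1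
  have h2 : ∏ j, ((Dat.pt hC j).co * g j) ^ C.n j = 1 := by
    ext1
    rw [Units.coe_prod, Units.val_one]
    rw [← C.prod_eq_one]
    refine Finset.prod_congr rfl fun j _ => ?_
    rw [Units.val_pow_eq_pow_val, Units.val_mul, hg]
    rfl
  have h3 := congrArg tu h2
  rw [tu_prod, tu_one] at h3
  have h4 : ∀ j, tu (((Dat.pt hC j).co * g j) ^ C.n j) =
      (2 : ℚ) • ((C.n j : ℚ) • tu (Dat.pt hC j).co) -
        (C.n j : ℚ) • ((C.k j : ℚ) • tu (cx C) + (C.l j : ℚ) • tu (cy C)) := by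
    intro j
    obtain ⟨N, hN, hN'⟩ := hC.tors j
    have h5 : tu (Dat.pt hC j).1 = (C.k j : ℚ) • tu (cx C) + (C.l j : ℚ) • tu (cy C) :=
      tu_mn hN hN' _ _
    rw [tu_pow, tu_mul, tu_co_inv (Dat.pt hC j) (hg j), h5]
    module
  rw [Finset.sum_congr rfl fun j _ => h4 j, Finset.sum_sub_distrib, ← Finset.smul_sum,
    sub_eq_zero] at h3
  rw [← h3, smul_smul]
  norm_num

theorem norm_ne (hC : C.Admissible) (j : Fin r) : C.k j ^ 2 + C.l j ^ 2 ≠ 0 := by
  intro h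
  have hk : C.k j = 0 := by nlinarith [sq_nonneg (C.k j), sq_nonneg (C.l j)]
  have hl : C.l j = 0 := by nlinarith [sq_nonneg (C.k j), sq_nonneg (C.l j)]
  have h2 := hC.two
  obtain ⟨i, hi⟩ : ∃ i : Fin r, i ≠ j := by
    have : Nontrivial (Fin r) := Fin.nontrivial_iff_two_le.2 h2
    exact exists_ne j
  refine hC.indep i j hi ?_
  rw [hk, hl]
  ring

theorem dif_alpha (hC : C.Admissible) : dif C.Ring (Dat.alpha hC) = 0 := by
  unfold Dat.alpha
  rw [map_sum]
  have h1 : ∀ j, dif C.Ring (((C.n j : ℚ) / (C.k j ^ 2 + C.l j ^ 2 : ℤ)) •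
      br (Dat.pt hC j) (C.mn 1 (-C.l j) (C.k j))) =
      al C.Ring ![(C.n j : ℚ) • tu (Dat.pt hC j).co, tu (cx C), tu (cy C)] := by
    intro j
    obtain ⟨N, hN, hN'⟩ := hC.tors j
    have h5 : tu (Dat.pt hC j).1 = (C.k j : ℚ) • tu (cx C) + (C.l j : ℚ) • tu (cy C) :=
      tu_mn hN hN' _ _
    have h6 : tu (C.mn 1 (-C.l j) (C.k j)) =
        ((-C.l j : ℤ) : ℚ) • tu (cx C) + (C.k j : ℚ) • tu (cy C) :=
      tu_mn (N := 1) one_pos (by simp) _ _
    rw [map_smul]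
    unfold br dif
    rw [Finsupp.linearCombination_single, one_smul]
    show _ • al C.Ring ![tu (Dat.pt hC j).co, tu (Dat.pt hC j).1,
      tu (C.mn 1 (-C.l j) (C.k j))] = _
    rw [h5, h6, alt_det, alt_smul1, smul_smul]
    congr 1
    have h7 : ((C.k j ^ 2 + C.l j ^ 2 : ℤ) : ℚ) ≠ 0 := by exact_mod_cast norm_ne hC j
    field_simp
    push_cast
    ring
  rw [Finset.sum_congr rfl fun j _ => h1 j, ← alt_sum1, sum_rel hC]
  simp only [smul_add, smul_smul, Finset.sum_add_distrib, ← Finset.sum_smul]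
  exact alt_zero _ _ _ _ _

end curve

end Pool.Agent.N65.TK
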