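import Pool.Agent.N65.TK.Defs
import Pool.Agent.W367.KT.Dilog
set_option autoImplicit false

/-!
The Bloch-Wigner function `D`: derivative along paths, five term relation; and the primitive of the
form of `{f}_2 ⊗ f`, a single-valued trilogarithm.
-/

namespace Pool.Agent.N65.TK

open Set MeasureTheory intervalIntegral Filter Topology Pool.Agent.W367.KT

section dbw

theorem Li_im {z : ℂ} (h0 : z ≠ 0) (hz : z ∈ S1) :
    (Li z).im = -∫ t in (0 : ℝ)..1, Complex.arg (1 - t * z) / t := by
  have hcont : ContinuousOn (fun t : ℝ => z * gfun (t * z)) (Icc 0 1) := by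
    refine ContinuousOn.mul continuousOn_const ?_
    refine differentiableOn_gfun.continuousOn.comp (f := fun t : ℝ => (t : ℂ) * z) (by fun_prop) ?_
    intro t ht
    exact star_S1 z hz t ht
  have hint : IntervalIntegrable (fun t : ℝ => z * gfun (t * z)) volume 0 1 := by
    apply ContinuousOn.intervalIntegrable
    rwa [uIcc_of_le zero_le_one]
  have h := Complex.imCLM.intervalIntegral_comp_comm hint
  unfold Li
  have h2 : (∫ t in (0:ℝ)..1, z * gfun (t * z)).im =
      ∫ t in (0:ℝ)..1, Complex.imCLM (z * gfun (t * z)) := h.symm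
  rw [h2, ← intervalIntegral.integral_neg]
  refine intervalIntegral.integral_congr_ae (Eventually.of_forall fun t ht => ?_)
  rw [uIoc_of_le zero_le_one] at ht
  have ht0 : (t : ℂ) ≠ 0 := by
    exact_mod_cast ht.1.ne'
  rw [gfun_of_ne (mul_ne_zero ht0 h0)]
  have h4 : z * (-Complex.log (1 - t * z) / (t * z)) = -Complex.log (1 - t * z) / (t : ℂ) := by
    field_simp
  rw [h4]
  show (-Complex.log (1 - t * z) / (t : ℂ)).im = _
  rw [Complex.div_ofReal_im, Complex.neg_im, Complex.log_im, neg_div]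

theorem Li_im_of_pos {a : ℝ} (h0 : 0 < a) (h1 : a ≤ 1) : (Li (a : ℂ)).im = 0 := by
  unfold Li
  have h : (∫ t in (0:ℝ)..1, (a : ℂ) * gfun (t * a)) =
      ∫ t in (0:ℝ)..1, (((-Real.log (1 - t * a) / t : ℝ)) : ℂ) := by
    refine intervalIntegral.integral_congr_ae (Eventually.of_forall fun t ht => ?_)
    rw [uIoc_of_le zero_le_one] at ht
    have ht0 : (t : ℂ) ≠ 0 := by
      exact_mod_cast ht.1.ne'
    have ha : (a : ℂ) ≠ 0 := by exact_mod_cast h0.ne'
    rw [gfun_of_ne (mul_ne_zero ht0 ha)]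
    have h2 : (1 : ℂ) - t * a = ((1 - t * a : ℝ) : ℂ) := by push_cast; ring
    have h3 : 0 ≤ 1 - t * a := by nlinarith [ht.1, ht.2]
    rw [h2, ← Complex.ofReal_log h3]
    push_cast
    field_simp
  rw [h, intervalIntegral.integral_ofReal, Complex.ofReal_im]

theorem D_of_mem {z : ℂ} (hz : z ∈ S1) : D z = D1 z := by
  unfold D D1
  rw [Complex.log_im]
  by_cases h0 : z = 0
  · subst h0
    have : Li 0 = 0 := by
      unfold Li
      simp
    rw [this]
    simp
  · rw [Li_im h0 hz]

theorem D_real_one_le {a : ℝ} (h1 : 1 ≤ a) : D (a : ℂ) = 0 := by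
  have h0 : 0 < a := by linarith
  unfold D
  have e1 : (∫ t in (0 : ℝ)..1, Complex.arg (1 - t * (a : ℂ)) / t) =
      ∫ t in (a⁻¹)..1, Real.pi / t := by
    have hint : ∀ x y : ℝ, 0 < x → x ≤ y → IntervalIntegrable (fun t : ℝ => Real.pi / t) volume x y := by
      intro x y hx hxy
      apply ContinuousOn.intervalIntegrable
      rw [uIcc_of_le hxy]
      exact continuousOn_const.div continuousOn_id fun t ht => (hx.trans_le ht.1).ne'
    have ha1 : a⁻¹ ≤ 1 := inv_le_one_of_one_le₀ h1
    have ha0 : 0 < a⁻¹ := inv_pos.2 h0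
    have c1 : EqOn (fun t : ℝ => (0 : ℝ)) (fun t : ℝ => Complex.arg (1 - t * (a : ℂ)) / t)
        (uIoc 0 a⁻¹) := by
      intro t ht
      rw [uIoc_of_le ha0.le] at ht
      have h2 : (1 : ℂ) - t * a = ((1 - t * a : ℝ) : ℂ) := by push_cast; ring
      have h3 : 0 ≤ 1 - t * a := by
        have := mul_le_mul_of_nonneg_right ht.2 h0.le
        rw [inv_mul_cancel₀ h0.ne'] at this
        linarith
      simp only []
      rw [h2, Complex.arg_ofReal_of_nonneg h3, zero_div]
    have c2 : EqOn (fun t : ℝ => Real.pi / t) (fun t : ℝ => Complex.arg (1 - t * (a : ℂ)) / t)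
        (uIoc a⁻¹ 1) := by
      intro t ht
      rw [uIoc_of_le ha1] at ht
      have h2 : (1 : ℂ) - t * a = ((1 - t * a : ℝ) : ℂ) := by push_cast; ring
      have h3 : 1 - t * a < 0 := by
        have := mul_lt_mul_of_pos_right ht.1 h0
        rw [inv_mul_cancel₀ h0.ne'] at this
        linarith
      simp only []
      rw [h2, Complex.arg_ofReal_of_neg h3]
    rw [← intervalIntegral.integral_add_adjacent_intervals (b := a⁻¹)]
    · rw [← intervalIntegral.integral_congr_ae (Eventually.of_forall fun t ht => c1 ht),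
        ← intervalIntegral.integral_congr_ae (Eventually.of_forall fun t ht => c2 ht)]
      simp
    · exact (intervalIntegrable_congr c1).1 (by simp)
    · exact (intervalIntegrable_congr c2).1 (hint _ _ ha0 ha1)
  rw [e1]
  have e2 : (∫ t in (a⁻¹)..1, Real.pi / t) = Real.pi * Real.log a := by
    simp only [div_eq_mul_inv]
    rw [intervalIntegral.integral_const_mul, integral_inv_of_pos (inv_pos.2 h0) one_pos]
    congr 1
    rw [one_div, inv_inv]
  rw [e2, Complex.norm_real, Real.norm_of_nonneg h0.le]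
  rcases eq_or_lt_of_le h1 with h | h
  · rw [← h, Real.log_one]
    ring
  · have h2 : (1 : ℂ) - a = ((1 - a : ℝ) : ℂ) := by push_cast; ring
    rw [h2, Complex.arg_ofReal_of_neg (by linarith)]
    ring

theorem not_mem_S1 {z : ℂ} (h : z ∉ S1) : z = (z.re : ℂ) ∧ 1 ≤ z.re := by
  unfold S1 at h
  simp only [Set.mem_ofPred_eq, Complex.mem_slitPlane_iff, Complex.sub_re, Complex.sub_im,
    Complex.one_re, Complex.one_im, zero_sub, neg_ne_zero, not_or, not_not, not_lt] at h
  obtain ⟨h2, h3⟩ := h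
  exact ⟨by apply Complex.ext <;> simp [h3], by linarith⟩

theorem D_eq_BW (z : ℂ) : D z = BW z := by
  unfold BW
  split_ifs with h
  · exact D_of_mem h
  · obtain ⟨h1, h2⟩ := not_mem_S1 h
    rw [h1, D_real_one_le h2]
    unfold D2 D1
    have h3 : 0 < (z.re)⁻¹ := inv_pos.2 (by linarith)
    have h4 : (z.re)⁻¹ ≤ 1 := inv_le_one_of_one_le₀ h2
    rw [← Complex.ofReal_inv, Li_im_of_pos h3 h4]
    have h5 : (1 : ℂ) - ((z.re)⁻¹ : ℝ) = ((1 - (z.re)⁻¹ : ℝ) : ℂ) := by push_cast; ring
    rw [h5, Complex.log_im, Complex.arg_ofReal_of_nonneg (by linarith)]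
    simp

/-- The derivative of the Bloch-Wigner function along a path. -/
theorem hasDerivAt_D {u : ℝ → ℂ} {u' : ℂ} {t : ℝ} (hu : HasDerivAt u u' t)
    (h0 : u t ≠ 0) (h1 : u t ≠ 1) : HasDerivAt (fun s => D (u s)) (eta (u t) u') t := by
  simp only [D_eq_BW]
  exact hasDerivAt_BW hu h0 h1

end dbw

end Pool.Agent.N65.TK
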