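import Pool.Agent.N65.TK.Loop
import Pool.Agent.N65.TK.Alg
set_option autoImplicit false

/-!
The paths on the curves, and their regulators.
-/

namespace Pool.Agent.N65.TK

open Set MeasureTheory intervalIntegral Filter Topology Real Metric

section maxmod

theorem exists_gt_one {r : ℕ} (d : Fin r → ℕ) (hd : ∀ j, 0 < d j) (b : Fin r → ℂ)
    (hb : ∀ j, ‖b j‖ = 1) (n : Fin r → ℕ) (hn : ∀ j, 0 < n j) (i : Fin r) :
    ∃ t : ℂ, ‖t‖ = 1 ∧ 1 < ‖∏ j, (1 - b j * t ^ d j) ^ n j‖ := by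
  by_contra hcon
  push Not at hcon
  set P : ℂ → ℂ := fun t => ∏ j, (1 - b j * t ^ d j) ^ n j with hP
  have hdiff : Differentiable ℂ P := by
    rw [hP]
    fun_prop
  have h1 : ∀ z ∈ closedBall (0 : ℂ) 1, ‖P z‖ ≤ 1 := by
    intro z hz
    rw [← closure_ball (0 : ℂ) one_ne_zero] at hz
    refine Complex.norm_le_of_forall_mem_frontier_norm_le isBounded_ball hdiff.diffContOnCl ?_ hz
    intro w hw
    rw [frontier_ball (0 : ℂ) one_ne_zero, mem_sphere_zero_iff_norm] at hw
    exact hcon w hw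
  have hP0 : P 0 = 1 := by
    rw [hP]
    refine Finset.prod_eq_one fun j _ => ?_
    rw [zero_pow (hd j).ne', mul_zero, sub_zero, one_pow]
  have h2 : IsMaxOn (norm ∘ P) (ball 0 1) 0 := by
    intro z hz
    simp only [Function.comp_apply, Set.mem_ofPred_eq, hP0, norm_one]
    exact h1 z (ball_subset_closedBall hz)
  have h3 := Complex.norm_eqOn_closedBall_of_isMaxOn hdiff.diffContOnCl h2
  obtain ⟨t, ht⟩ := IsAlgClosed.exists_pow_nat_eq ((b i)⁻¹) (hd i)
  have hbi : b i ≠ 0 := by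
    intro h
    have := hb i
    rw [h, norm_zero] at this
    exact zero_ne_one this
  have ht1 : ‖t‖ = 1 := by
    have h4 : ‖t‖ ^ d i = 1 := by
      rw [← norm_pow, ht, norm_inv, hb, inv_one]
    exact (pow_eq_one_iff_of_nonneg (norm_nonneg _) (hd i).ne').1 h4
  have h5 := h3 (mem_closedBall_zero_iff.2 ht1.le)
  simp only [Function.comp_apply, Function.const_apply, hP0, norm_one] at h5
  have h6 : P t = 0 := by
    rw [hP]
    refine Finset.prod_eq_zero (Finset.mem_univ i) ?_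
    rw [ht, mul_inv_cancel₀ hbi, sub_self, zero_pow (hn i).ne']
  rw [h6, norm_zero] at h5
  exact zero_ne_one h5

end maxmod

variable {K : Type*} [Field K] {r : ℕ} {C : Dat K r} (σ : K →+* ℂ)

/-- `(k, l) ↦ exp(i (k s + l w))` -/
noncomputable def chr (s w : ℝ) : Multiplicative (ℤ × ℤ) →* ℂ where
  toFun m := Complex.exp (((m.toAdd.1 * s + m.toAdd.2 * w : ℝ) : ℂ) * Complex.I)
  map_one' := by simp
  map_mul' m m' := by
    rw [← Complex.exp_add, toAdd_mul]
    congr 1
    simp only [Prod.fst_add, Prod.snd_add]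
    push_cast
    ring

/-- The value at the point `(exp(i s), exp(i w))`. -/
noncomputable def ev (s w : ℝ) : LP2 K →+* ℂ :=
  AddMonoidAlgebra.liftNCRingHom σ (chr s w) fun _ _ => mul_comm _ _

theorem ev_single (s w : ℝ) (m : ℤ × ℤ) (a : K) :
    ev σ s w (AddMonoidAlgebra.single m a) =
      σ a * Complex.exp (((m.1 * s + m.2 * w : ℝ) : ℂ) * Complex.I) :=
  AddMonoidAlgebra.liftNCRingHom_single _ _ _ _ _

theorem ev_mo (s w : ℝ) (a : Kˣ) (k l : ℤ) :
    ev σ s w (mo a k l : LP2 K) = σ a * Complex.exp (((k * s + l * w : ℝ) : ℂ) * Complex.I) :=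
  ev_single σ s w (k, l) a

theorem ev_eq (s w : ℝ) (P : LP2 K) :
    ev σ s w P = ∑ m ∈ P.coeff.support, σ (P.coeff m) *
      Complex.exp (((m.1 * s + m.2 * w : ℝ) : ℂ) * Complex.I) := by
  conv_lhs => rw [← AddMonoidAlgebra.sum_coeff_single P]
  unfold Finsupp.sum
  rw [map_sum]
  simp only [ev_single]

theorem norm_root {ε : Kˣ} (h : ∃ N : ℕ, 0 < N ∧ ε ^ N = 1) : ‖σ (ε : K)‖ = 1 := by
  obtain ⟨N, hN, h⟩ := h
  have h1 : (σ (ε : K)) ^ N = 1 := by
    rw [← map_pow, ← Units.val_pow_eq_pow_val, h, Units.val_one, map_one]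
  have h2 : ‖σ (ε : K)‖ ^ N = 1 := by rw [← norm_pow, h1, norm_one]
  exact (pow_eq_one_iff_of_nonneg (norm_nonneg _) hN.ne').1 h2

theorem exists_angle {z : ℂ} (hz : ‖z‖ = 1) (h1 : z ≠ 1) :
    ∃ e : ℝ, (0 < e ∧ e < 2 * π) ∧ z = Complex.exp (e * Complex.I) := by
  have h2 : Complex.exp (z.arg * Complex.I) = z := by
    have := Complex.norm_mul_exp_arg_mul_I z
    rwa [hz, Complex.ofReal_one, one_mul] at this
  have hpi := Real.pi_pos
  have h3 := Complex.neg_pi_lt_arg z
  have h4 := Complex.arg_le_pi z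
  rcases lt_trichotomy z.arg 0 with h | h | h
  · refine ⟨z.arg + 2 * π, ⟨by linarith, by linarith⟩, ?_⟩
    rw [Complex.ofReal_add, add_mul, Complex.exp_add, h2]
    push_cast
    rw [Complex.exp_two_pi_mul_I, mul_one]
  · exfalso
    rw [h] at h2
    simp only [Complex.ofReal_zero, zero_mul, Complex.exp_zero] at h2
    exact h1 h2.symm
  · exact ⟨z.arg, ⟨h, by linarith⟩, h2.symm⟩

theorem exists_generic (hC : C.Admissible) : ∃ q : ℤ, ∀ j, C.k j + C.l j * q ≠ 0 := by
  refine ⟨1 + ∑ j, |C.k j|, fun j h => ?_⟩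
  have h1 : |C.k j| ≤ ∑ i, |C.k i| :=
    Finset.single_le_sum (f := fun i => |C.k i|) (fun i _ => abs_nonneg _) (Finset.mem_univ j)
  set S := ∑ i, |C.k i| with hS
  rcases eq_or_ne (C.l j) 0 with hl | hl
  · rw [hl, zero_mul, add_zero] at h
    refine norm_ne hC j ?_
    rw [h, hl]
    ring
  · have h2 : |C.k j| = |C.l j| * |1 + S| := by
      rw [← abs_mul, ← abs_neg]
      congr 1
      linarith
    have h3 : 1 ≤ |C.l j| := Int.one_le_abs hl
    have h4 : 1 + S ≤ |1 + S| := le_abs_self _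
    have h5 : 0 ≤ S := (abs_nonneg _).trans h1
    nlinarith

/-- The base point. -/
theorem exists_base (hC : C.Admissible) : ∃ (s w : ℝ) (e : Fin r → ℝ),
    (∀ j, 0 < e j ∧ e j < 2 * π) ∧
    (∀ j, σ (C.ε j) * Complex.exp (((C.k j * s + C.l j * w : ℝ) : ℂ) * Complex.I) =
      Complex.exp (e j * Complex.I)) ∧ 0 < ∑ j, C.n j * Ls (e j) := by
  obtain ⟨q, hq⟩ := exists_generic hC
  have i : Fin r := ⟨0, by have := hC.two; omega⟩
  set d : Fin r → ℤ := fun j => C.k j + C.l j * q with hd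
  obtain ⟨t, ht, hP⟩ := exists_gt_one (fun j => (d j).natAbs)
    (fun j => Int.natAbs_pos.2 (hq j))
    (fun j => if 0 < d j then σ (C.ε j) else (σ (C.ε j))⁻¹) (fun j => by
      split_ifs
      · exact norm_root σ (hC.tors j)
      · rw [norm_inv, norm_root σ (hC.tors j), inv_one]) C.n hC.pos i
  obtain ⟨φ, hφ⟩ : ∃ φ : ℝ, t = Complex.exp (φ * Complex.I) := by
    refine ⟨t.arg, ?_⟩
    have := Complex.norm_mul_exp_arg_mul_I t
    rw [ht, Complex.ofReal_one, one_mul] at this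
    exact this.symm
  have hm : ∀ j, σ (C.ε j) * Complex.exp (((C.k j * φ + C.l j * (q * φ) : ℝ) : ℂ) * Complex.I) =
      σ (C.ε j) * t ^ d j := by
    intro j
    rw [hφ, ← Complex.exp_int_mul, hd]
    congr 2
    push_cast
    ring
  have ht0 : t ≠ 0 := by
    rw [hφ]
    exact Complex.exp_ne_zero _
  have hnm : ∀ j, ‖σ (C.ε j) * t ^ d j‖ = 1 := by
    intro j
    rw [norm_mul, norm_root σ (hC.tors j), norm_zpow, ht, one_zpow, mul_one]
  have hn1 : ∀ j, ‖1 - (if 0 < d j then σ (C.ε j) else (σ (C.ε j))⁻¹) * t ^ (d j).natAbs‖ =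
      ‖1 - σ (C.ε j) * t ^ d j‖ := by
    intro j
    split_ifs with h
    · rw [← zpow_natCast, Int.natAbs_of_nonneg h.le]
    · have h2 : ((d j).natAbs : ℤ) = - d j := by
        have := hq j
        omega
      have h3 : (σ (C.ε j))⁻¹ * t ^ (d j).natAbs = (σ (C.ε j) * t ^ d j)⁻¹ := by
        rw [← zpow_natCast, h2, zpow_neg, mul_inv]
      have h4 := hnm j
      have h5 : σ (C.ε j) * t ^ d j ≠ 0 := by
        intro h
        rw [h, norm_zero] at h4
        exact zero_ne_one h4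
      rw [h3]
      have h6 : 1 - (σ (C.ε j) * t ^ d j)⁻¹ =
          -((1 - σ (C.ε j) * t ^ d j) * (σ (C.ε j) * t ^ d j)⁻¹) := by
        field_simp
        ring
      rw [h6, norm_neg, norm_mul, norm_inv, h4, inv_one, mul_one]
  rw [norm_prod] at hP
  simp only [norm_pow, hn1] at hP
  have hne : ∀ j, σ (C.ε j) * t ^ d j ≠ 1 := by
    intro j h
    have h2 : ∏ j, ‖1 - σ (C.ε j) * t ^ d j‖ ^ C.n j = 0 := by
      refine Finset.prod_eq_zero (Finset.mem_univ j) ?_
      rw [h, sub_self, norm_zero, zero_pow (hC.pos j).ne']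
    rw [h2] at hP
    linarith
  choose e he he' using fun j => exists_angle (hnm j) (hne j)
  refine ⟨φ, q * φ, e, he, fun j => ?_, ?_⟩
  · rw [hm, he']
  · have h7 : ∑ j, C.n j * Ls (e j) = Real.log (∏ j, ‖1 - σ (C.ε j) * t ^ d j‖ ^ C.n j) := by
      rw [Real.log_prod]
      · refine Finset.sum_congr rfl fun j _ => ?_
        rw [Real.log_pow, he', norm_one_sub_exp (he j).1 (he j).2]
        rfl
      · intro j _
        refine pow_ne_zero _ ?_
        rw [norm_ne_zero_iff, sub_ne_zero]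
        exact (hne j).symm
    rw [h7]
    exact Real.log_pos hP

section path

variable {s w : ℝ} {e : Fin r → ℝ} (hC : C.Admissible)

/-- the data in the plane -/
theorem cond_of (hC : C.Admissible) (he : ∀ j, 0 < e j ∧ e j < 2 * π)
    (hpos : 0 < ∑ j, C.n j * Ls (e j)) :
    Cond e (fun j => (C.k j : ℝ)) (fun j => (C.l j : ℝ)) C.n where
  he := he
  hn := hC.pos
  span := by
    have h2 := hC.two
    refine ⟨⟨0, by omega⟩, ⟨1, by omega⟩, ?_⟩
    have := hC.indep ⟨0, by omega⟩ ⟨1, by omega⟩ (by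
      intro h
      rw [Fin.mk.injEq] at h
      omega)
    exact_mod_cast this
  pos := hpos

theorem ev_m (he' : ∀ j, σ (C.ε j) * Complex.exp (((C.k j * s + C.l j * w : ℝ) : ℂ) * Complex.I) =
      Complex.exp (e j * Complex.I)) (x y : ℝ) (j : Fin r) :
    ev σ (s + x) (w + y) (C.m j : LP2 K) =
      Complex.exp (((e j + (C.k j * x + C.l j * y) : ℝ) : ℂ) * Complex.I) := by
  unfold Dat.m
  rw [ev_mo, Complex.ofReal_add (e j), add_mul, Complex.exp_add, ← he' j, mul_assoc,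
    ← Complex.exp_add]
  congr 2
  push_cast
  ring

theorem ev_eqn
    (he' : ∀ j, σ (C.ε j) * Complex.exp (((C.k j * s + C.l j * w : ℝ) : ℂ) * Complex.I) =
      Complex.exp (e j * Complex.I)) (x y : ℝ)
    (hr : ∀ j, 0 < e j + (C.k j * x + C.l j * y) ∧ e j + (C.k j * x + C.l j * y) < 2 * π)
    (h0 : ∑ j, C.n j * Ls (e j + (C.k j * x + C.l j * y)) = 0) :
    ev σ (s + x) (w + y) C.eqn = 0 := by
  unfold Dat.eqn
  rw [map_sub, map_one, sub_eq_zero, map_prod]
  have h1 : ∀ j, ev σ (s + x) (w + y) (((1 - (C.m j : LP2 K)) *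
      (1 - ((C.m j)⁻¹ : (LP2 K)ˣ))) ^ C.n j) =
      ((Real.exp (2 * (C.n j * Ls (e j + (C.k j * x + C.l j * y)))) : ℝ) : ℂ) := by
    intro j
    set θ := e j + (C.k j * x + C.l j * y) with hθ
    have h2 : ev σ (s + x) (w + y) (((C.m j)⁻¹ : (LP2 K)ˣ) : LP2 K) =
        (Complex.exp ((θ : ℂ) * Complex.I))⁻¹ := by
      rw [← ev_m σ he' x y j]
      refine eq_inv_of_mul_eq_one_right ?_
      rw [← map_mul, Units.mul_inv, map_one]
    rw [map_pow, map_mul, map_sub, map_sub, map_one, ev_m σ he', h2, ← hθ]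
    have h3 : (1 - Complex.exp ((θ : ℂ) * Complex.I)) *
        (1 - (Complex.exp ((θ : ℂ) * Complex.I))⁻¹) = ((2 * Real.sin (θ / 2)) ^ 2 : ℝ) := by
      rw [← norm_one_sub_exp (hr j).1 (hr j).2, ← hθ, ← Complex.normSq_eq_norm_sq,
        ← Complex.mul_conj]
      congr 1
      rw [map_sub, map_one, ← Complex.exp_neg, ← Complex.exp_conj]
      simp
    rw [h3, ← Complex.ofReal_pow]
    congr 1
    have hs := sin_half_pos (hr j).1 (hr j).2
    have h4 : Real.exp (Ls θ) = 2 * Real.sin (θ / 2) := by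
      unfold Ls
      rw [Real.exp_log (by positivity)]
    have h5 : Real.exp (2 * Ls θ) = (2 * Real.sin (θ / 2)) ^ 2 := by
      rw [two_mul, Real.exp_add, h4]
      ring
    rw [mul_left_comm, Real.exp_nat_mul, h5]
  rw [Finset.prod_congr rfl fun j _ => h1 j, ← Complex.ofReal_prod, ← Real.exp_sum,
    ← Finset.mul_sum, h0]
  simp

section build

variable (he : ∀ j, 0 < e j ∧ e j < 2 * π)
  (he' : ∀ j, σ (C.ε j) * Complex.exp (((C.k j * s + C.l j * w : ℝ) : ℂ) * Complex.I) =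
      Complex.exp (e j * Complex.I))
  (hpos : 0 < ∑ j, C.n j * Ls (e j))

/-- the angle of `x` -/
noncomputable def Ux (C : Dat K r) (s : ℝ) (e : Fin r → ℝ) (t : ℝ) : ℝ :=
  s + Xx e (fun j => (C.k j : ℝ)) (fun j => (C.l j : ℝ)) C.n t

/-- the angle of `y` -/
noncomputable def Uy (C : Dat K r) (w : ℝ) (e : Fin r → ℝ) (t : ℝ) : ℝ :=
  w + Yy e (fun j => (C.k j : ℝ)) (fun j => (C.l j : ℝ)) C.n t

include hC he he' hpos in
theorem ev_zero (t : ℝ) (P : LP2 K) (hP : P ∈ Ideal.span {C.eqn}) :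
    ev σ (Ux C s e t) (Uy C w e t) P = 0 := by
  have hc := cond_of hC he hpos
  have h1 : ev σ (Ux C s e t) (Uy C w e t) C.eqn = 0 := by
    refine ev_eqn σ he' _ _ (fun j => ?_) (hc.level t)
    have := hc.range j (right_mem_Icc.2 zero_le_one) t
    simpa only [one_mul] using this
  rw [Ideal.mem_span_singleton'] at hP
  obtain ⟨Q, rfl⟩ := hP
  rw [map_mul, h1, mul_zero]

/-- The closed path on the curve. -/
noncomputable def pth : Path C.Ring where
  e t := Ideal.Quotient.lift (Ideal.span {C.eqn}) (ev σ (Ux C s e t) (Uy C w e t))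
    (ev_zero σ hC he he' hpos t)
  smooth h := by
    obtain ⟨P, rfl⟩ := Ideal.Quotient.mk_surjective h
    have hc := cond_of hC he hpos
    have h1 := hc.contDiff_Xx
    have h2 := hc.contDiff_Yy
    have h3 : (fun t => Ideal.Quotient.lift (Ideal.span {C.eqn}) (ev σ (Ux C s e t) (Uy C w e t))
        (ev_zero σ hC he he' hpos t) (Ideal.Quotient.mk _ P)) =
        fun t => ∑ m ∈ P.coeff.support, σ (P.coeff m) *
          Complex.exp (((m.1 * Ux C s e t + m.2 * Uy C w e t : ℝ) : ℂ) * Complex.I) := by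
      funext t
      rw [Ideal.Quotient.lift_mk, ev_eq]
    have h4 : ContDiff ℝ 2 fun t => ∑ m ∈ P.coeff.support, σ (P.coeff m) *
          Complex.exp (((m.1 * Ux C s e t + m.2 * Uy C w e t : ℝ) : ℂ) * Complex.I) := by
      refine ContDiff.sum fun m _ => contDiff_const.mul ?_
      have h5 : ContDiff ℝ 2 fun t => (m.1 * Ux C s e t + m.2 * Uy C w e t : ℝ) := by
        unfold Ux Uy
        fun_prop
      exact ((Complex.ofRealCLM.contDiff.comp h5).mul contDiff_const).cexp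
    rw [← h3] at h4
    exact h4
  periodic t := by
    have h1 : Ux C s e (t + 1) = Ux C s e t := by
      unfold Ux
      rw [Xx_periodic]
    have h2 : Uy C w e (t + 1) = Uy C w e t := by
      unfold Uy
      rw [Yy_periodic]
    simp only [h1, h2]

theorem pth_proj (t : ℝ) (P : LP2 K) :
    (pth σ hC he he' hpos).e t (C.proj P) = ev σ (Ux C s e t) (Uy C w e t) P :=
  Ideal.Quotient.lift_mk _ _ _

theorem pth_mn (t : ℝ) (a : Kˣ) (k l : ℤ) :
    (pth σ hC he he' hpos).e t (C.mn a k l) = σ a *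
      Complex.exp (((k * Ux C s e t + l * Uy C w e t : ℝ) : ℂ) * Complex.I) := by
  rw [← ev_mo σ (Ux C s e t) (Uy C w e t) a k l, ← pth_proj σ hC he he' hpos]
  rfl

theorem pth_cst (t : ℝ) (a : K) : (pth σ hC he he' hpos).e t (C.cst a) = σ a := by
  show (pth σ hC he he' hpos).e t (C.proj (AddMonoidAlgebra.singleZeroRingHom a)) = σ a
  rw [pth_proj]
  show ev σ (Ux C s e t) (Uy C w e t) (AddMonoidAlgebra.single 0 a) = σ a
  rw [ev_single]
  simp

theorem pth_pt (t : ℝ) (j : Fin r) :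
    (pth σ hC he he' hpos).e t (Dat.pt hC j).1 = Complex.exp (((e j +
      (C.k j * Xx e (fun j => (C.k j : ℝ)) (fun j => (C.l j : ℝ)) C.n t +
       C.l j * Yy e (fun j => (C.k j : ℝ)) (fun j => (C.l j : ℝ)) C.n t) : ℝ) : ℂ) *
      Complex.I) := by
  rw [← ev_m σ he']
  exact pth_proj σ hC he he' hpos t _

/-- The regulator of the class along the path. -/
theorem reg_alpha : (pth σ hC he he' hpos).reg (Dat.alpha hC) =
    ∑ j, (C.n j : ℝ) / ((C.k j : ℝ) ^ 2 + (C.l j : ℝ) ^ 2) * ∫ t in (0 : ℝ)..1,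
      Dc (e j + (C.k j * Xx e (fun j => (C.k j : ℝ)) (fun j => (C.l j : ℝ)) C.n t +
       C.l j * Yy e (fun j => (C.k j : ℝ)) (fun j => (C.l j : ℝ)) C.n t)) *
        deriv (fun s => C.k j * Yy e (fun j => (C.k j : ℝ)) (fun j => (C.l j : ℝ)) C.n s -
          C.l j * Xx e (fun j => (C.k j : ℝ)) (fun j => (C.l j : ℝ)) C.n s) t := by
  have hc := cond_of hC he hpos
  have hX := hc.contDiff_Xx
  have hY := hc.contDiff_Yy
  have hXd : ∀ t, HasDerivAt (Xx e (fun j => (C.k j : ℝ)) (fun j => (C.l j : ℝ)) C.n)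
      (deriv (Xx e (fun j => (C.k j : ℝ)) (fun j => (C.l j : ℝ)) C.n) t) t := fun t =>
    (hX.differentiable (by norm_num) t).hasDerivAt
  have hYd : ∀ t, HasDerivAt (Yy e (fun j => (C.k j : ℝ)) (fun j => (C.l j : ℝ)) C.n)
      (deriv (Yy e (fun j => (C.k j : ℝ)) (fun j => (C.l j : ℝ)) C.n) t) t := fun t =>
    (hY.differentiable (by norm_num) t).hasDerivAt
  unfold Dat.alpha
  rw [map_sum]
  refine Finset.sum_congr rfl fun j _ => ?_
  rw [map_smul, Rat.smul_def]
  unfold br Path.reg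
  rw [Finsupp.linearCombination_single, one_smul]
  have hcoef : (((C.n j : ℚ) / (C.k j ^ 2 + C.l j ^ 2 : ℤ) : ℚ) : ℝ) =
      (C.n j : ℝ) / ((C.k j : ℝ) ^ 2 + (C.l j : ℝ) ^ 2) := by
    push_cast
    rfl
  rw [hcoef]
  congr 1
  refine integral_congr fun t _ => ?_
  simp only []
  have hfun : (fun s' => (pth σ hC he he' hpos).e s' (C.mn 1 (-C.l j) (C.k j))) =
      fun s' => Complex.exp ((((-C.l j : ℤ) * Ux C s e s' + C.k j * Uy C w e s' : ℝ) : ℂ) *
        Complex.I) := by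
    funext s'
    rw [pth_mn, Units.val_one, map_one, one_mul]
  have hβ : HasDerivAt (fun s' => ((-C.l j : ℤ) * Ux C s e s' + C.k j * Uy C w e s' : ℝ))
      (deriv (fun s => C.k j * Yy e (fun j => (C.k j : ℝ)) (fun j => (C.l j : ℝ)) C.n s -
          C.l j * Xx e (fun j => (C.k j : ℝ)) (fun j => (C.l j : ℝ)) C.n s) t) t := by
    have h1 := ((hYd t).const_mul (C.k j : ℝ)).fun_sub ((hXd t).const_mul (C.l j : ℝ))
    rw [h1.deriv]
    have h2 : HasDerivAt (fun s' => Ux C s e s') _ t := (hXd t).const_add s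
    have h3 : HasDerivAt (fun s' => Uy C w e s') _ t := (hYd t).const_add w
    refine ((h2.const_mul _).add (h3.const_mul _)).congr_deriv ?_
    push_cast
    ring
  have hexp := (hβ.ofReal_comp.mul_const Complex.I).cexp
  rw [hfun, hexp.deriv, pth_pt]
  unfold frm
  rw [show (pth σ hC he he' hpos).e t (C.mn 1 (-C.l j) (C.k j)) = _ from congrFun hfun t,
    mul_div_cancel_left₀ _ (Complex.exp_ne_zero _), Complex.norm_exp_ofReal_mul_I, Real.log_one]
  simp [Dc]

theorem reg_alpha_neg : (pth σ hC he he' hpos).reg (Dat.alpha hC) < 0 := by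
  rw [reg_alpha]
  refine (cond_of hC he hpos).sum_neg fun j => ?_
  have := norm_ne hC j
  exact_mod_cast this

end build

/-- For every complex embedding there is a closed path with nonzero regulator. -/
theorem exists_path (hC : C.Admissible) (σ : K →+* ℂ) : ∃ γ : Path C.Ring,
    (∀ t a, γ.e t (C.cst a) = σ a) ∧
    (∀ t (a b : ℤ), ‖γ.e t (C.mn 1 a b)‖ = 1) ∧ γ.reg (Dat.alpha hC) < 0 := by
  obtain ⟨s, w, e, he, he', hpos⟩ := exists_base σ hC
  refine ⟨pth σ hC he he' hpos, fun t a => pth_cst σ hC he he' hpos t a, fun t a b => ?_,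
    reg_alpha_neg σ hC he he' hpos⟩
  rw [pth_mn, Units.val_one, map_one, one_mul, Complex.norm_exp_ofReal_mul_I]

end path

end Pool.Agent.N65.TK
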