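import Mathlib
set_option autoImplicit false

/-!
The level curve of a sum of the functions `n_j log (2 sin (θ_j / 2))`, `θ_j` linear functions in the
plane, in polar coordinates.
-/

namespace Pool.Agent.N65.TK

open Set Filter Topology Real

/-- `log (2 sin (θ / 2))` -/
noncomputable def Ls (θ : ℝ) : ℝ := Real.log (2 * Real.sin (θ / 2))

theorem sin_half_pos {θ : ℝ} (h0 : 0 < θ) (h1 : θ < 2 * π) : 0 < Real.sin (θ / 2) :=
  Real.sin_pos_of_pos_of_lt_pi (by linarith) (by linarith)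

theorem hasDerivAt_Ls {θ : ℝ} (h0 : 0 < θ) (h1 : θ < 2 * π) :
    HasDerivAt Ls (Real.cos (θ / 2) / (2 * Real.sin (θ / 2))) θ := by
  have hs := sin_half_pos h0 h1
  have h2 : HasDerivAt (fun x : ℝ => x / 2) (1 / 2) θ := (hasDerivAt_id θ).div_const 2
  have h3 : HasDerivAt (fun x : ℝ => 2 * Real.sin (x / 2)) (2 * (Real.cos (θ / 2) * (1 / 2))) θ :=
    (h2.sin).const_mul 2
  have h4 := h3.log (by positivity)
  unfold Ls
  refine h4.congr_deriv ?_
  field_simp

theorem sin_le_tangent {a b : ℝ} (ha : a ∈ Icc 0 π) (hb : b ∈ Icc 0 π) :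
    Real.sin a ≤ Real.sin b + (a - b) * Real.cos b := by
  have hc := strictConcaveOn_sin_Icc.concaveOn
  rcases lt_trichotomy a b with h | h | h
  · have h1 := hc.le_slope_of_hasDerivAt ha hb h (Real.hasDerivAt_sin b)
    rw [slope_def_field, le_div_iff₀ (by linarith)] at h1
    linarith
  · rw [h]; simp
  · have h1 := hc.slope_le_of_hasDerivAt hb ha h (Real.hasDerivAt_sin b)
    rw [slope_def_field, div_le_iff₀ (by linarith)] at h1
    linarith

theorem Ls_le_tangent {a b : ℝ} (ha0 : 0 < a) (ha1 : a < 2 * π) (hb0 : 0 < b) (hb1 : b < 2 * π) :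
    Ls a ≤ Ls b + (a - b) * (Real.cos (b / 2) / (2 * Real.sin (b / 2))) := by
  have hsa := sin_half_pos ha0 ha1
  have hsb := sin_half_pos hb0 hb1
  have h1 := sin_le_tangent (a := a / 2) (b := b / 2) ⟨by linarith, by linarith⟩
    ⟨by linarith, by linarith⟩
  unfold Ls
  rw [Real.log_mul (by norm_num) hsa.ne', Real.log_mul (by norm_num) hsb.ne']
  have h2 : Real.log (Real.sin (a / 2)) - Real.log (Real.sin (b / 2)) ≤
      Real.sin (a / 2) / Real.sin (b / 2) - 1 := by
    rw [← Real.log_div hsa.ne' hsb.ne']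
    exact Real.log_le_sub_one_of_pos (by positivity)
  have h3 : Real.sin (a / 2) / Real.sin (b / 2) - 1 ≤
      (a - b) * (Real.cos (b / 2) / (2 * Real.sin (b / 2))) := by
    rw [div_sub_one hsb.ne', ← mul_div_assoc, div_le_div_iff₀ hsb (by positivity)]
    nlinarith
  linarith

section ray

variable {r : ℕ} (e k l : Fin r → ℝ) (n : Fin r → ℕ)

/-- the angle `θ_j` -/
noncomputable def th (j : Fin r) (φ ρ : ℝ) : ℝ := e j + ρ * (k j * Real.cos φ + l j * Real.sin φ)

/-- the sum of the logarithms -/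
noncomputable def Hs (φ ρ : ℝ) : ℝ := ∑ j, n j * Ls (th e k l j φ ρ)

/-- the product -/
noncomputable def Ps (φ ρ : ℝ) : ℝ := ∏ j, (2 * Real.sin (th e k l j φ ρ / 2)) ^ n j

/-- the chamber -/
def Ch (φ ρ : ℝ) : Prop := ∀ j, 0 < th e k l j φ ρ ∧ th e k l j φ ρ < 2 * π

variable {e k l n}

theorem exp_Hs {φ ρ : ℝ} (h : Ch e k l φ ρ) : Real.exp (Hs e k l n φ ρ) = Ps e k l n φ ρ := by
  unfold Hs Ps
  rw [Real.exp_sum]
  refine Finset.prod_congr rfl fun j _ => ?_
  have hs := sin_half_pos (h j).1 (h j).2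
  unfold Ls
  rw [Real.exp_nat_mul, Real.exp_log (by positivity)]

theorem th_zero (j : Fin r) (φ : ℝ) : th e k l j φ 0 = e j := by
  unfold th; ring

theorem Ch_zero (he : ∀ j, 0 < e j ∧ e j < 2 * π) (φ : ℝ) : Ch e k l φ 0 := by
  intro j
  rw [th_zero]
  exact he j

theorem Ch_mul {φ ρ τ : ℝ} (he : ∀ j, 0 < e j ∧ e j < 2 * π) (h : Ch e k l φ ρ) (h0 : 0 ≤ τ)
    (h1 : τ ≤ 1) : Ch e k l φ (τ * ρ) := by
  intro j
  have h2 : th e k l j φ (τ * ρ) = (1 - τ) * e j + τ * th e k l j φ ρ := by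
    unfold th; ring
  rw [h2]
  obtain ⟨h3, h4⟩ := h j
  obtain ⟨h5, h6⟩ := he j
  rcases eq_or_lt_of_le h0 with h7 | h7
  · rw [← h7]
    constructor <;> linarith
  · constructor
    · have := mul_pos h7 h3
      nlinarith
    · have := mul_lt_mul_of_pos_left h4 h7
      nlinarith

theorem continuous_Ps (φ : ℝ) : Continuous (Ps e k l n φ) := by
  unfold Ps th
  fun_prop

theorem Hs_tangent {φ ρ ρ' : ℝ} (h : Ch e k l φ ρ) (h' : Ch e k l φ ρ') :
    Hs e k l n φ ρ' ≤ Hs e k l n φ ρ + (ρ' - ρ) * ∑ j, n j * ((k j * Real.cos φ + l j * Real.sin φ) *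
      (Real.cos (th e k l j φ ρ / 2) / (2 * Real.sin (th e k l j φ ρ / 2)))) := by
  unfold Hs
  rw [Finset.mul_sum, ← Finset.sum_add_distrib]
  refine Finset.sum_le_sum fun j _ => ?_
  have h1 := Ls_le_tangent (h' j).1 (h' j).2 (h j).1 (h j).2
  have h2 : th e k l j φ ρ' - th e k l j φ ρ =
      (ρ' - ρ) * (k j * Real.cos φ + l j * Real.sin φ) := by
    unfold th; ring
  rw [h2] at h1
  have h3 : (0 : ℝ) ≤ n j := Nat.cast_nonneg _
  have h4 := mul_le_mul_of_nonneg_left h1 h3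
  linarith

variable (e k l n) in
/-- the radius -/
noncomputable def rad (φ : ℝ) : ℝ := sInf {ρ : ℝ | 0 ≤ ρ ∧ Ps e k l n φ ρ ≤ 1}

/-- the conditions -/
structure Cond (e k l : Fin r → ℝ) (n : Fin r → ℕ) : Prop where
  he : ∀ j, 0 < e j ∧ e j < 2 * π
  hn : ∀ j, 0 < n j
  span : ∃ i j, k i * l j ≠ k j * l i
  pos : 0 < ∑ j, n j * Ls (e j)

variable (hc : Cond e k l n)

include hc

theorem Cond.Hs_zero (φ : ℝ) : 0 < Hs e k l n φ 0 := by
  unfold Hs
  simp only [th_zero]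
  exact hc.pos

theorem Cond.exists_dir (φ : ℝ) : ∃ j, k j * Real.cos φ + l j * Real.sin φ ≠ 0 := by
  obtain ⟨i, j, hij⟩ := hc.span
  by_contra hcon
  push Not at hcon
  have h1 := hcon i
  have h2 := hcon j
  have hcs := Real.sin_sq_add_cos_sq φ
  have h3 : (k i * l j - k j * l i) * Real.cos φ = 0 := by
    linear_combination l j * h1 - l i * h2
  have h4 : (k i * l j - k j * l i) * Real.sin φ = 0 := by
    linear_combination k i * h2 - k j * h1
  have h5 := sub_ne_zero.2 hij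
  have h6 := (mul_eq_zero.1 h3).resolve_left h5
  have h7 := (mul_eq_zero.1 h4).resolve_left h5
  rw [h6, h7] at hcs
  norm_num at hcs

theorem Cond.nonempty (φ : ℝ) : {ρ : ℝ | 0 ≤ ρ ∧ Ps e k l n φ ρ ≤ 1}.Nonempty := by
  obtain ⟨j, hj⟩ := hc.exists_dir φ
  obtain ⟨h1, h2⟩ := hc.he j
  set a := k j * Real.cos φ + l j * Real.sin φ with ha
  obtain ⟨ρ, h0, hρ⟩ : ∃ ρ : ℝ, 0 ≤ ρ ∧ Real.sin (th e k l j φ ρ / 2) = 0 := by
    rcases lt_or_gt_of_ne hj with h | h
    · refine ⟨-e j / a, div_nonneg_of_nonpos (by linarith) h.le, ?_⟩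
      have : th e k l j φ (-e j / a) = 0 := by
        unfold th
        rw [← ha]
        field_simp
        ring
      rw [this]
      simp
    · refine ⟨(2 * π - e j) / a, div_nonneg (by linarith) h.le, ?_⟩
      have : th e k l j φ ((2 * π - e j) / a) = 2 * π := by
        unfold th
        rw [← ha]
        field_simp
        ring
      rw [this, mul_div_cancel_left₀ _ (by norm_num : (2 : ℝ) ≠ 0), Real.sin_pi]
  refine ⟨ρ, h0, ?_⟩
  have : Ps e k l n φ ρ = 0 := by
    unfold Ps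
    refine Finset.prod_eq_zero (Finset.mem_univ j) ?_
    rw [hρ, mul_zero, zero_pow (hc.hn j).ne']
  rw [this]
  exact zero_le_one

omit hc in
theorem Cond.isClosed (φ : ℝ) : IsClosed {ρ : ℝ | 0 ≤ ρ ∧ Ps e k l n φ ρ ≤ 1} :=
  (isClosed_le continuous_const continuous_id).inter
    (isClosed_le (continuous_Ps φ) continuous_const)

omit hc in
theorem Cond.bddBelow (φ : ℝ) : BddBelow {ρ : ℝ | 0 ≤ ρ ∧ Ps e k l n φ ρ ≤ 1} :=
  ⟨0, fun _ h => h.1⟩

theorem Cond.rad_mem (φ : ℝ) : 0 ≤ rad e k l n φ ∧ Ps e k l n φ (rad e k l n φ) ≤ 1 :=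
  (Cond.isClosed φ).csInf_mem (hc.nonempty φ) (Cond.bddBelow φ)

theorem Cond.one_lt_Ps_zero (φ : ℝ) : 1 < Ps e k l n φ 0 := by
  rw [← exp_Hs (Ch_zero hc.he φ)]
  exact Real.one_lt_exp_iff.2 (hc.Hs_zero φ)

theorem Cond.rad_pos (φ : ℝ) : 0 < rad e k l n φ := by
  obtain ⟨h0, h1⟩ := hc.rad_mem φ
  refine lt_of_le_of_ne h0 fun h => ?_
  rw [← h] at h1
  exact absurd h1 (not_le.2 (hc.one_lt_Ps_zero φ))

theorem Cond.one_lt_of_lt {φ ρ : ℝ} (h0 : 0 ≤ ρ) (h1 : ρ < rad e k l n φ) :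
    1 < Ps e k l n φ ρ := by
  by_contra hcon
  exact absurd (csInf_le (Cond.bddBelow φ) ⟨h0, not_lt.1 hcon⟩) (not_le.2 h1)

theorem Cond.Ps_rad (φ : ℝ) : Ps e k l n φ (rad e k l n φ) = 1 := by
  refine le_antisymm (hc.rad_mem φ).2 ?_
  have hρ := hc.rad_pos φ
  have h1 : Tendsto (Ps e k l n φ) (𝓝[<] (rad e k l n φ)) (𝓝 (Ps e k l n φ (rad e k l n φ))) :=
    ((continuous_Ps φ).tendsto _).mono_left nhdsWithin_le_nhds
  refine ge_of_tendsto h1 ?_
  have h2 : Ioo 0 (rad e k l n φ) ∈ 𝓝[<] (rad e k l n φ) := Ioo_mem_nhdsLT hρ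
  filter_upwards [h2] with ρ hρ'
  exact (hc.one_lt_of_lt hρ'.1.le hρ'.2).le

theorem Cond.Ch_of_le {φ ρ : ℝ} (h0 : 0 ≤ ρ) (h1 : ρ ≤ rad e k l n φ) : Ch e k l φ ρ := by
  have hpos : ∀ x, 0 ≤ x → x ≤ rad e k l n φ → ∀ j, Real.sin (th e k l j φ x / 2) ≠ 0 := by
    intro x hx0 hx1 j hs
    have h2 : Ps e k l n φ x = 0 := by
      unfold Ps
      refine Finset.prod_eq_zero (Finset.mem_univ j) ?_
      rw [hs, mul_zero, zero_pow (hc.hn j).ne']
    rcases eq_or_lt_of_le hx1 with h | h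
    · have := hc.Ps_rad φ
      rw [← h, h2] at this
      exact zero_ne_one this
    · have := hc.one_lt_of_lt hx0 h
      rw [h2] at this
      linarith
  intro j
  obtain ⟨h2, h3⟩ := hc.he j
  constructor
  · by_contra hcon
    rw [not_lt] at hcon
    set a := k j * Real.cos φ + l j * Real.sin φ with ha
    have h4 : e j + ρ * a ≤ 0 := hcon
    have ha0 : a < 0 := by
      by_contra h
      rw [not_lt] at h
      have := mul_nonneg h0 h
      linarith
    refine hpos (-e j / a) (div_nonneg_of_nonpos (by linarith) ha0.le) ?_ j ?_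
    · refine le_trans ?_ h1
      rw [div_le_iff_of_neg ha0]
      linarith
    · have : th e k l j φ (-e j / a) = 0 := by
        unfold th
        rw [← ha, div_mul_cancel₀ _ ha0.ne]
        ring
      rw [this]
      simp
  · by_contra hcon
    rw [not_lt] at hcon
    set a := k j * Real.cos φ + l j * Real.sin φ with ha
    have h4 : 2 * π ≤ e j + ρ * a := hcon
    have ha0 : 0 < a := by
      by_contra h
      rw [not_lt] at h
      have := mul_nonpos_of_nonneg_of_nonpos h0 h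
      linarith
    refine hpos ((2 * π - e j) / a) (div_nonneg (by linarith) ha0.le) ?_ j ?_
    · refine le_trans ?_ h1
      rw [div_le_iff₀ ha0]
      linarith
    · have : th e k l j φ ((2 * π - e j) / a) = 2 * π := by
        unfold th
        rw [← ha]
        field_simp
        ring
      rw [this, mul_div_cancel_left₀ _ (by norm_num : (2 : ℝ) ≠ 0), Real.sin_pi]

theorem Cond.Hs_rad (φ : ℝ) : Hs e k l n φ (rad e k l n φ) = 0 := by
  have h := exp_Hs (n := n) (hc.Ch_of_le (hc.rad_pos φ).le le_rfl)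
  rw [hc.Ps_rad] at h
  exact Real.exp_eq_one_iff _ |>.1 h

theorem Cond.Hs_pos {φ ρ : ℝ} (h0 : 0 ≤ ρ) (h1 : ρ < rad e k l n φ) : 0 < Hs e k l n φ ρ := by
  have h := exp_Hs (n := n) (hc.Ch_of_le h0 h1.le)
  have h2 := hc.one_lt_of_lt h0 h1
  rw [← h] at h2
  exact Real.one_lt_exp_iff.1 h2

theorem Cond.eq_rad {φ ρ : ℝ} (h0 : 0 < ρ) (h1 : Ch e k l φ ρ) (h2 : Hs e k l n φ ρ = 0) :
    rad e k l n φ = ρ := by
  have h3 : rad e k l n φ ≤ ρ := by
    refine csInf_le (Cond.bddBelow φ) ⟨h0.le, ?_⟩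
    rw [← exp_Hs h1, h2, Real.exp_zero]
  refine le_antisymm h3 ?_
  have hR := hc.rad_pos φ
  have hChR := hc.Ch_of_le (φ := φ) hR.le le_rfl
  have t1 := Hs_tangent (n := n) hChR (Ch_zero hc.he φ)
  have t2 := Hs_tangent (n := n) hChR h1
  rw [hc.Hs_rad, zero_add] at t1 t2
  rw [h2] at t2
  have hz := hc.Hs_zero φ
  set S := ∑ j, n j * ((k j * Real.cos φ + l j * Real.sin φ) *
      (Real.cos (th e k l j φ (rad e k l n φ) / 2) /
        (2 * Real.sin (th e k l j φ (rad e k l n φ) / 2)))) with hS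
  by_contra hcon
  rw [not_le] at hcon
  have hS0 : S < 0 := by
    by_contra h
    rw [not_lt] at h
    have := mul_nonneg hR.le h
    linarith
  have : (ρ - rad e k l n φ) * S < 0 := mul_neg_of_pos_of_neg (by linarith) hS0
  linarith

theorem Cond.slope_neg (φ : ℝ) : ∑ j, n j * ((k j * Real.cos φ + l j * Real.sin φ) *
      (Real.cos (th e k l j φ (rad e k l n φ) / 2) /
        (2 * Real.sin (th e k l j φ (rad e k l n φ) / 2)))) < 0 := by
  have hR := hc.rad_pos φ
  have hChR := hc.Ch_of_le (φ := φ) hR.le le_rfl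
  have t1 := Hs_tangent (n := n) hChR (Ch_zero hc.he φ)
  rw [hc.Hs_rad, zero_add] at t1
  have hz := hc.Hs_zero φ
  by_contra h
  rw [not_lt] at h
  have := mul_nonneg hR.le h
  linarith

theorem Cond.contDiff_rad : ContDiff ℝ 2 (rad e k l n) := by
  rw [contDiff_iff_contDiffAt]
  intro φ
  have hR := hc.rad_pos φ
  have hCh := hc.Ch_of_le (φ := φ) hR.le le_rfl
  set f : ℝ × ℝ → ℝ := fun p => Hs e k l n p.1 p.2 with hf
  have hcd : ContDiffAt ℝ 2 f (φ, rad e k l n φ) := by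
    rw [hf]
    unfold Hs Ls th
    refine ContDiffAt.sum fun j _ => ContDiffAt.mul contDiffAt_const ?_
    refine ContDiffAt.log (by fun_prop) ?_
    have := sin_half_pos (hCh j).1 (hCh j).2
    exact (mul_pos two_pos this).ne'
  have hder : HasDerivAt (fun ρ => f (φ, ρ)) (∑ j, n j * ((k j * Real.cos φ + l j * Real.sin φ) *
      (Real.cos (th e k l j φ (rad e k l n φ) / 2) /
        (2 * Real.sin (th e k l j φ (rad e k l n φ) / 2))))) (rad e k l n φ) := by
    rw [hf]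
    unfold Hs
    refine HasDerivAt.fun_sum fun j _ => ?_
    have h1 : HasDerivAt (fun ρ => th e k l j φ ρ) (k j * Real.cos φ + l j * Real.sin φ)
        (rad e k l n φ) := by
      unfold th
      have := ((hasDerivAt_id (rad e k l n φ)).mul_const
        (k j * Real.cos φ + l j * Real.sin φ)).const_add (e j)
      simpa using this
    have h2 := (hasDerivAt_Ls (hCh j).1 (hCh j).2).comp (rad e k l n φ) h1
    refine (h2.const_mul (n j : ℝ)).congr_deriv ?_
    ring
  have hinv : (fderiv ℝ f (φ, rad e k l n φ) ∘L ContinuousLinearMap.inr ℝ ℝ ℝ).IsInvertible := by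
    have h1 : HasFDerivAt f (fderiv ℝ f (φ, rad e k l n φ)) (φ, rad e k l n φ) :=
      (hcd.differentiableAt (by norm_num)).hasFDerivAt
    have h2 : HasDerivAt (fun ρ : ℝ => ((φ, ρ) : ℝ × ℝ)) (0, 1) (rad e k l n φ) :=
      (hasDerivAt_const _ _).prodMk (hasDerivAt_id _)
    have h3 := h1.comp_hasDerivAt _ h2
    have h4 := h3.unique hder
    have h5 : (fderiv ℝ f (φ, rad e k l n φ) ∘L ContinuousLinearMap.inr ℝ ℝ ℝ) 1 ≠ 0 := by
      show fderiv ℝ f (φ, rad e k l n φ) (0, 1) ≠ 0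
      rw [h4]
      exact (hc.slope_neg φ).ne
    set g := fderiv ℝ f (φ, rad e k l n φ) ∘L ContinuousLinearMap.inr ℝ ℝ ℝ with hg
    refine ⟨ContinuousLinearEquiv.unitsEquivAut ℝ (Units.mk0 (g 1) h5), ?_⟩
    ext
    simp
  set ψ := hcd.implicitFunction (by norm_num) hinv with hψ
  have hψc : ContDiffAt ℝ 2 ψ φ := hcd.contDiffAt_implicitFunction (by norm_num) hinv
  have hψ0 : ψ φ = rad e k l n φ := hcd.implicitFunction_apply_self (by norm_num) hinv
  have hψe := hcd.eventually_apply_implicitFunction (by norm_num) hinv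
  refine hψc.congr_of_eventuallyEq ?_
  have hcont : ContinuousAt ψ φ := hψc.continuousAt
  have hpos : ∀ᶠ x in 𝓝 φ, 0 < ψ x := by
    have := hcont.tendsto
    rw [hψ0] at this
    exact this.eventually (lt_mem_nhds hR)
  have hch : ∀ᶠ x in 𝓝 φ, Ch e k l x (ψ x) := by
    have h1 : ∀ j, ContinuousAt (fun x => th e k l j x (ψ x)) φ := by
      intro j
      unfold th
      fun_prop
    unfold Ch
    rw [eventually_all]
    intro j
    have h2 := (h1 j).tendsto
    rw [hψ0] at h2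
    exact (h2.eventually (lt_mem_nhds (hCh j).1)).and (h2.eventually (gt_mem_nhds (hCh j).2))
  filter_upwards [hψe, hpos, hch] with x h1 h2 h3
  refine hc.eq_rad h2 h3 ?_
  have : f (x, ψ x) = f (φ, rad e k l n φ) := h1
  rw [hf] at this
  simp only [] at this
  rw [this, hc.Hs_rad]

omit hc in
theorem rad_periodic (φ : ℝ) : rad e k l n (φ + 2 * π) = rad e k l n φ := by
  unfold rad Ps th
  simp only [Real.cos_add_two_pi, Real.sin_add_two_pi]

end ray

end Pool.Agent.N65.TK
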