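import Pool.Agent.N65.TK.BW
import Pool.Agent.N65.TK.Ray
set_option autoImplicit false

/-!
The Bloch-Wigner function on the unit circle; integrals depending on a parameter.
-/

namespace Pool.Agent.N65.TK

open Set MeasureTheory intervalIntegral Filter Topology Real

/-- `D` on the unit circle -/
noncomputable def Dc (θ : ℝ) : ℝ := D (Complex.exp (θ * Complex.I))

theorem norm_one_sub_exp {θ : ℝ} (h0 : 0 < θ) (h1 : θ < 2 * π) :
    ‖1 - Complex.exp (θ * Complex.I)‖ = 2 * Real.sin (θ / 2) := by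
  have hs := sin_half_pos h0 h1
  rw [norm_sub_rev, mul_comm, Complex.norm_exp_I_mul_ofReal_sub_one, Real.norm_of_nonneg (by positivity)]

theorem exp_ne_one {θ : ℝ} (h0 : 0 < θ) (h1 : θ < 2 * π) : Complex.exp (θ * Complex.I) ≠ 1 := by
  intro h
  have h2 := norm_one_sub_exp h0 h1
  have hs := sin_half_pos h0 h1
  rw [h, sub_self, norm_zero] at h2
  linarith

theorem hasDerivAt_exp_I {θ : ℝ} :
    HasDerivAt (fun s : ℝ => Complex.exp (s * Complex.I)) (Complex.exp (θ * Complex.I) * Complex.I)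
      θ := by
  have h1 : HasDerivAt (fun s : ℝ => (s : ℂ)) 1 θ := Complex.ofRealCLM.hasDerivAt
  have h2 := (h1.mul_const Complex.I).cexp
  rwa [one_mul] at h2

theorem hasDerivAt_Dc {θ : ℝ} (h0 : 0 < θ) (h1 : θ < 2 * π) : HasDerivAt Dc (-Ls θ) θ := by
  have h2 := hasDerivAt_D (hasDerivAt_exp_I (θ := θ)) (Complex.exp_ne_zero _) (exp_ne_one h0 h1)
  refine h2.congr_deriv ?_
  unfold Pool.Agent.W367.KT.eta
  rw [mul_div_cancel_left₀ _ (Complex.exp_ne_zero _), norm_one_sub_exp h0 h1,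
    Complex.norm_exp_ofReal_mul_I]
  simp [Ls]

section param

theorem param_cont {G : ℝ → ℝ → ℝ} (hG : ContinuousOn (Function.uncurry G) (Icc 0 1 ×ˢ univ)) :
    ContinuousOn (fun τ => ∫ t in (0 : ℝ)..1, G τ t) (Icc 0 1) := by
  have h1 : Continuous (Function.uncurry fun (τ : ℝ) (t : ℝ) =>
      G (projIcc (0 : ℝ) 1 zero_le_one τ) t) := by
    have h2 : Continuous fun p : ℝ × ℝ => (((projIcc (0 : ℝ) 1 zero_le_one p.1 : Icc (0:ℝ) 1) : ℝ), p.2) :=
      (continuous_subtype_val.comp (continuous_projIcc.comp continuous_fst)).prodMk continuous_snd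
    exact hG.comp_continuous h2 fun p => ⟨Subtype.coe_prop _, mem_univ _⟩
  have h3 := intervalIntegral.continuous_parametric_intervalIntegral_of_continuous' (μ := volume)
    h1 0 1
  refine h3.continuousOn.congr fun τ hτ => ?_
  simp only [projIcc_of_mem zero_le_one hτ]

theorem param_deriv {G G' : ℝ → ℝ → ℝ} (hG : ContinuousOn (Function.uncurry G) (Icc 0 1 ×ˢ univ))
    (hG' : ContinuousOn (Function.uncurry G') (Icc 0 1 ×ˢ univ))
    (hd : ∀ τ ∈ Ioo (0 : ℝ) 1, ∀ t, HasDerivAt (fun x => G x t) (G' τ t) τ) {τ : ℝ}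
    (hτ : τ ∈ Ioo (0 : ℝ) 1) :
    HasDerivAt (fun x => ∫ t in (0 : ℝ)..1, G x t) (∫ t in (0 : ℝ)..1, G' τ t) τ := by
  have hc : ∀ {H : ℝ → ℝ → ℝ}, ContinuousOn (Function.uncurry H) (Icc 0 1 ×ˢ univ) →
      ∀ x ∈ Icc (0 : ℝ) 1, Continuous (H x) := by
    intro H hH x hx
    exact hH.comp_continuous (continuous_const.prodMk continuous_id) fun p => ⟨hx, mem_univ _⟩
  obtain ⟨M, hM⟩ : ∃ M, ∀ p ∈ (Icc (0 : ℝ) 1 ×ˢ Icc (0 : ℝ) 1), ‖Function.uncurry G' p‖ ≤ M :=
    (isCompact_Icc.prod isCompact_Icc).exists_bound_of_continuousOn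
      (hG'.mono (prod_mono subset_rfl (subset_univ _)))
  have hτ' : τ ∈ Icc (0 : ℝ) 1 := Ioo_subset_Icc_self hτ
  refine (intervalIntegral.hasDerivAt_integral_of_dominated_loc_of_deriv_le (μ := volume)
    (F := G) (F' := G') (bound := fun _ => M) (s := Ioo 0 1) (Ioo_mem_nhds hτ.1 hτ.2) ?_ ?_ ?_ ?_ ?_ ?_).2
  · filter_upwards [Ioo_mem_nhds hτ.1 hτ.2] with x hx
    exact (hc hG x (Ioo_subset_Icc_self hx)).aestronglyMeasurable
  · exact (hc hG τ hτ').intervalIntegrable _ _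
  · exact (hc hG' τ hτ').aestronglyMeasurable
  · refine Eventually.of_forall fun t ht x hx => ?_
    rw [uIoc_of_le zero_le_one] at ht
    exact hM (x, t) ⟨Ioo_subset_Icc_self hx, Ioc_subset_Icc_self ht⟩
  · exact intervalIntegrable_const
  · exact Eventually.of_forall fun t _ x hx => hd x hx t

end param

end Pool.Agent.N65.TK
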