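import Mathlib
set_option autoImplicit false

/-!
The second cohomology of the weight three polylogarithmic complex
`B_3 → B_2 ⊗ A^* → Λ^3 A^*` (Goncharov, de Jeu), its residues, the regulator with the Bloch-Wigner
function along closed paths of complex points, and the curves
`∏_j ((1 - ε_j x^(k_j) y^(l_j)) (1 - ε_j^(-1) x^(-k_j) y^(-l_j))) ^ (n_j) = 1`.
-/

namespace Pool.Agent.N65.TK

open scoped TensorProduct WithZero

section complex

variable (A : Type*) [CommRing A]

/-- The units `f` for which `1 - f` is a unit. -/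
abbrev Pt : Type _ := {f : Aˣ // IsUnit (1 - (f : A))}

variable {A}

/-- The unit `1 - f`. -/
noncomputable def Pt.co (f : Pt A) : Aˣ := f.2.unit

/-- The image under a homomorphism. -/
def Pt.map {B : Type*} [CommRing B] (φ : A →+* B) (f : Pt A) : Pt B :=
  ⟨Units.map (φ : A →* B) f.1, by
    have h := f.2.map φ
    rw [map_sub, map_one] at h
    exact h⟩

variable (A)

/-- The formal sums `∑ r {f}_2 ⊗ g`, `r ∈ ℚ`. -/
abbrev FS : Type _ := (Pt A × Aˣ) →₀ ℚ

variable {A}

/-- The formal sum `{f}_2 ⊗ g`. -/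
noncomputable def br (f : Pt A) (g : Aˣ) : FS A := Finsupp.single (f, g) 1

/-- The image under a homomorphism. -/
noncomputable def FS.map {B : Type*} [CommRing B] (φ : A →+* B) : FS A →ₗ[ℚ] FS B :=
  Finsupp.lmapDomain ℚ ℚ fun p => (p.1.map φ, Units.map (φ : A →* B) p.2)

variable (A)

/-- `A^* ⊗ ℚ` -/
def UQ : Type _ := ℚ ⊗[ℤ] Additive Aˣ

noncomputable instance : AddCommGroup (UQ A) := TensorProduct.addCommGroup

noncomputable instance : Module ℚ (UQ A) := TensorProduct.leftModule

/-- `Λ^3 (A^* ⊗ ℚ)` -/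
def L3 : Type _ := ⋀[ℚ]^3 (UQ A)

noncomputable instance : AddCommGroup (L3 A) := Submodule.addCommGroup (⋀[ℚ]^3 (UQ A))

noncomputable instance : Module ℚ (L3 A) := Submodule.module (⋀[ℚ]^3 (UQ A))

/-- The map `(u, v, w) ↦ u ∧ v ∧ w`. -/
noncomputable def al : (UQ A) [⋀^Fin 3]→ₗ[ℚ] (L3 A) := exteriorPower.ιMulti ℚ 3

variable {A}

/-- The element `a ⊗ 1` of `A^* ⊗ ℚ` given by a unit. -/
noncomputable def tu (a : Aˣ) : UQ A := (1 : ℚ) ⊗ₜ[ℤ] Additive.ofMul a

/-- The element `a ∧ b ∧ c`. -/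
noncomputable def wedge (a b c : Aˣ) : L3 A := al A ![tu a, tu b, tu c]

variable (A)

/-- The differential `{f}_2 ⊗ g ↦ (1 - f) ∧ f ∧ g` with values in `Λ^3 (A^* ⊗ ℚ)`. -/
noncomputable def dif : FS A →ₗ[ℚ] L3 A :=
  Finsupp.linearCombination ℚ fun p => wedge p.1.co p.1.1 p.2

variable {A}

/-- The five term relation `[x] - [y] + [a] - [b] + [c]` holds with `a = y / x`,
`b = (1 - x⁻¹) / (1 - y⁻¹)`, `c = (1 - x) / (1 - y)`. -/
def Five (x y a b c : Pt A) : Prop :=
  (a.1 : A) * x.1 = y.1 ∧ (b.1 : A) * (x.1 * (y.1 - 1)) = (x.1 - 1) * y.1 ∧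
    (c.1 : A) * (1 - y.1) = 1 - x.1

variable (A)

/-- The relations: bilinearity in the second entry, the five term relation in the first entry, and
the elements `{f}_2 ⊗ f`, the image of `{f}_3`. The second cohomology of the complex
`B_3(A) → B_2(A) ⊗ A^* → Λ^3 A^*`, tensored with `ℚ`, is the kernel of `dif` modulo the relations. -/
noncomputable def Rels : Submodule ℚ (FS A) := Submodule.span ℚ
  ({s | ∃ (f : Pt A) (g h : Aˣ), s = br f (g * h) - br f g - br f h} ∪
   {s | ∃ (x y a b c : Pt A) (g : Aˣ), Five x y a b c ∧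
      s = br x g - br y g + br a g - br b g + br c g} ∪
   {s | ∃ f : Pt A, s = br f f.1})

end complex

section residue

/-- The five term relations. -/
noncomputable def B2Rel (κ : Type*) [Field κ] : Submodule ℚ (Pt κ →₀ ℚ) := Submodule.span ℚ
  {s | ∃ x y a b c : Pt κ, Five x y a b c ∧
      s = Finsupp.single x 1 - Finsupp.single y 1 + Finsupp.single a 1 - Finsupp.single b 1 +
        Finsupp.single c 1}

/-- The group `B_2(κ) ⊗ ℚ` of a field: the formal sums of elements of `κ` different from `0` and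
`1`, modulo the five term relations. -/
def B2 (κ : Type*) [Field κ] : Type _ := (Pt κ →₀ ℚ) ⧸ B2Rel κ

noncomputable instance (κ : Type*) [Field κ] : AddCommGroup (B2 κ) :=
  Submodule.Quotient.addCommGroup (B2Rel κ)

noncomputable instance (κ : Type*) [Field κ] : Module ℚ (B2 κ) :=
  Submodule.Quotient.module (B2Rel κ)

/-- The class `[u]` in `B_2(κ) ⊗ ℚ`. -/
noncomputable def B2.cl {κ : Type*} [Field κ] (u : Pt κ) : B2 κ :=
  Submodule.Quotient.mk (p := B2Rel κ) (Finsupp.single u 1)

variable {L : Type*} [Field L] (v : Valuation L ℤᵐ⁰)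

/-- The residue field. -/
def Kap : Type _ := IsLocalRing.ResidueField v.valuationSubring

noncomputable instance : Field (Kap v) := IsLocalRing.ResidueField.field v.valuationSubring

/-- The reduction. -/
noncomputable def red (x : v.valuationSubring) : Kap v := IsLocalRing.residue v.valuationSubring x

/-- The reduction of `f` is the element `u`, different from `0` and `1`, of the residue field. -/
def Red (f : Pt L) (u : Pt (Kap v)) : Prop :=
  ∃ x : v.valuationSubring, (x : L) = (f.1 : L) ∧ red v x = (u.1 : Kap v)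

open Classical in
/-- The class of the reduction of `f` in `B_2(κ(v)) ⊗ ℚ`; it is `0` if `f` is not a unit at `v` or
if its reduction is `1`. -/
noncomputable def redB (f : Pt L) : B2 (Kap v) :=
  if h : ∃ u : Pt (Kap v), Red v f u then B2.cl h.choose else 0

/-- The residue `{f}_2 ⊗ g ↦ ord(g) [f]` at the discrete valuation `v`, with values in
`B_2(κ(v)) ⊗ ℚ`. -/
noncomputable def bnd : FS L →ₗ[ℚ] B2 (Kap v) :=
  Finsupp.linearCombination ℚ fun p =>
    ((WithZero.log (v (p.2 : L)) : ℤ) : ℚ) • redB v p.1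

end residue

section regulator

/-- The Bloch-Wigner function `D(z) = Im Li_2(z) + arg(1 - z) log |z|`,
`Im Li_2(z) = - ∫_0^1 arg(1 - t z) dt / t`. -/
noncomputable def D (z : ℂ) : ℝ :=
  -(∫ t in (0 : ℝ)..1, Complex.arg (1 - t * z) / t) + Complex.arg (1 - z) * Real.log ‖z‖

/-- The value of `D(f) d arg g - (1/3) log |g| (log |1 - f| d log |f| - log |f| d log |1 - f|)`
for `f = z`, `df = z'`, `g = w`, `dg = w'`. -/
noncomputable def frm (z z' w w' : ℂ) : ℝ :=
  D z * (w' / w).im - 1 / 3 * Real.log ‖w‖ *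
    (Real.log ‖1 - z‖ * (z' / z).re - Real.log ‖z‖ * (-z' / (1 - z)).re)

/-- A closed path of class `C²` in the space of the complex points of the ring `A`: a periodic
family `e t`, `t ∈ ℝ`, of homomorphisms `A → ℂ`, such that for all `h ∈ A` the value `e t h` is a
function of class `C²` of `t`. -/
structure Path (A : Type*) [CommRing A] where
  /-- evaluation at the point with parameter `t` -/
  e : ℝ → A →+* ℂ
  smooth : ∀ h : A, ContDiff ℝ 2 fun t => e t h
  periodic : ∀ t, e (t + 1) = e t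

/-- The regulator: the integral of the form over the closed path. -/
noncomputable def Path.reg {A : Type*} [CommRing A] (γ : Path A) : FS A →ₗ[ℚ] ℝ :=
  Finsupp.linearCombination ℚ fun p => ∫ t in (0 : ℝ)..1,
    frm (γ.e t p.1.1) (deriv (fun s => γ.e s p.1.1) t) (γ.e t p.2)
      (deriv (fun s => γ.e s p.2) t)

end regulator

section curves

variable (K : Type*) [Field K]

/-- The Laurent polynomials in `x` and `y`. -/
abbrev LP2 : Type _ := AddMonoidAlgebra K (ℤ × ℤ)

variable {K}

/-- The unit `a x^k y^l`. -/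
noncomputable def mo (a : Kˣ) (k l : ℤ) : (LP2 K)ˣ where
  val := AddMonoidAlgebra.single (k, l) (a : K)
  inv := AddMonoidAlgebra.single (-k, -l) ((a⁻¹ : Kˣ) : K)
  val_inv := by
    rw [AddMonoidAlgebra.single_mul_single]
    simp [AddMonoidAlgebra.one_def]
    rfl
  inv_val := by
    rw [AddMonoidAlgebra.single_mul_single]
    simp [AddMonoidAlgebra.one_def]
    rfl

variable (K)

/-- The data of a curve: `r` monomials `ε_j x^(k_j) y^(l_j)` and exponents `n_j`. -/
structure Dat (r : ℕ) where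
  /-- the coefficients -/
  ε : Fin r → Kˣ
  /-- the exponents of `x` -/
  k : Fin r → ℤ
  /-- the exponents of `y` -/
  l : Fin r → ℤ
  /-- the multiplicities -/
  n : Fin r → ℕ

variable {K} {r : ℕ} (C : Dat K r)

/-- The conditions: at least two monomials, whose exponents are not proportional, with roots of unity
as coefficients, and positive multiplicities. -/
structure Dat.Admissible : Prop where
  two : 2 ≤ r
  indep : ∀ i j, i ≠ j → C.k i * C.l j ≠ C.k j * C.l i
  tors : ∀ j, ∃ N : ℕ, 0 < N ∧ C.ε j ^ N = 1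
  pos : ∀ j, 0 < C.n j

/-- The monomial `ε_j x^(k_j) y^(l_j)`. -/
noncomputable def Dat.m (j : Fin r) : (LP2 K)ˣ := mo (C.ε j) (C.k j) (C.l j)

/-- The equation `∏_j ((1 - m_j) (1 - m_j⁻¹)) ^ (n_j) - 1`. -/
noncomputable def Dat.eqn : LP2 K :=
  ∏ j, ((1 - (C.m j : LP2 K)) * (1 - ((C.m j)⁻¹ : (LP2 K)ˣ))) ^ C.n j - 1

/-- The coordinate ring of the curve in the torus. -/
def Dat.Ring : Type _ := LP2 K ⧸ Ideal.span {C.eqn}

noncomputable instance : CommRing C.Ring := Ideal.Quotient.commRing (Ideal.span {C.eqn})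

/-- The restriction of functions to the curve. -/
noncomputable def Dat.proj : LP2 K →+* C.Ring := Ideal.Quotient.mk (Ideal.span {C.eqn})

/-- The constants. -/
noncomputable def Dat.cst : K →+* C.Ring := C.proj.comp AddMonoidAlgebra.singleZeroRingHom

/-- The unit `a x^k y^l` on the curve. -/
noncomputable def Dat.mn (a : Kˣ) (k l : ℤ) : C.Ringˣ :=
  Units.map (C.proj : LP2 K →* C.Ring) (mo a k l)

theorem Dat.prod_eq_one :
    ∏ j, ((1 - (C.mn (C.ε j) (C.k j) (C.l j) : C.Ring)) *
      (1 - ((C.mn (C.ε j) (C.k j) (C.l j))⁻¹ : C.Ringˣ))) ^ C.n j = 1 := by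
  have h : C.proj C.eqn = 0 := Ideal.Quotient.eq_zero_iff_mem.2 (Ideal.subset_span rfl)
  unfold Dat.eqn at h
  rw [map_sub, map_one, sub_eq_zero, map_prod] at h
  rw [← h]
  refine Finset.prod_congr rfl fun j _ => ?_
  rw [map_pow, map_mul, map_sub, map_sub, map_one]
  congr 3

variable {C}

/-- The function `m_j = ε_j x^(k_j) y^(l_j)` on the curve; `1 - m_j` is a unit. -/
noncomputable def Dat.pt (hC : C.Admissible) (j : Fin r) : Pt C.Ring :=
  ⟨C.mn (C.ε j) (C.k j) (C.l j), by
    have h1 := C.prod_eq_one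
    rw [← Finset.mul_prod_erase Finset.univ _ (Finset.mem_univ j)] at h1
    have h2 := IsUnit.of_mul_eq_one _ h1
    rw [isUnit_pow_iff (hC.pos j).ne'] at h2
    exact isUnit_of_mul_isUnit_left h2⟩

/-- The element `∑_j n_j / (k_j² + l_j²) {m_j}_2 ⊗ x^(-l_j) y^(k_j)`. -/
noncomputable def Dat.alpha (hC : C.Admissible) : FS C.Ring :=
  ∑ j, ((C.n j : ℚ) / (C.k j ^ 2 + C.l j ^ 2 : ℤ)) • br (Dat.pt hC j) (C.mn 1 (-C.l j) (C.k j))

end curves

end Pool.Agent.N65.TK
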