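import Pool.Agent.N65.TK.Circ
set_option autoImplicit false

/-!
The integral of `∑_j n_j / (k_j² + l_j²) D(exp(i θ_j)) d B_j` over the level curve.
-/

namespace Pool.Agent.N65.TK

open Set MeasureTheory intervalIntegral Filter Topology Real

section green

variable {e N : ℝ} {A A' B B' S : ℝ → ℝ}

theorem green_D (hA : ∀ t, HasDerivAt A (A' t) t)
    (hr : ∀ τ ∈ Icc (0 : ℝ) 1, ∀ t, 0 < e + τ * A t ∧ e + τ * A t < 2 * π) :
    ContinuousOn (fun p : ℝ × ℝ => Dc (e + p.1 * A p.2)) (Icc 0 1 ×ˢ univ) := by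
  have hAc : Continuous A := continuous_iff_continuousAt.2 fun t => (hA t).continuousAt
  have harg : Continuous fun p : ℝ × ℝ => e + p.1 * A p.2 := by fun_prop
  intro p hp
  have h1 := hr p.1 hp.1 p.2
  exact ((hasDerivAt_Dc h1.1 h1.2).continuousAt.comp (f := fun p : ℝ × ℝ => e + p.1 * A p.2)
      harg.continuousAt).continuousWithinAt

theorem green_L (hA : ∀ t, HasDerivAt A (A' t) t)
    (hr : ∀ τ ∈ Icc (0 : ℝ) 1, ∀ t, 0 < e + τ * A t ∧ e + τ * A t < 2 * π) :
    ContinuousOn (fun p : ℝ × ℝ => Ls (e + p.1 * A p.2)) (Icc 0 1 ×ˢ univ) := by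
  have hAc : Continuous A := continuous_iff_continuousAt.2 fun t => (hA t).continuousAt
  have harg : Continuous fun p : ℝ × ℝ => e + p.1 * A p.2 := by fun_prop
  intro p hp
  have h1 := hr p.1 hp.1 p.2
  exact ((hasDerivAt_Ls h1.1 h1.2).continuousAt.comp (f := fun p : ℝ × ℝ => e + p.1 * A p.2)
      harg.continuousAt).continuousWithinAt

theorem green_G (hA : ∀ t, HasDerivAt A (A' t) t) (hB' : Continuous B')
    (hr : ∀ τ ∈ Icc (0 : ℝ) 1, ∀ t, 0 < e + τ * A t ∧ e + τ * A t < 2 * π) :
    ContinuousOn (Function.uncurry fun τ t => Dc (e + τ * A t) * (τ * B' t))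
      (Icc 0 1 ×ˢ univ) :=
  ContinuousOn.mul (f := fun p : ℝ × ℝ => Dc (e + p.1 * A p.2))
    (g := fun p : ℝ × ℝ => p.1 * B' p.2) (green_D hA hr)
    (continuous_fst.mul (hB'.comp continuous_snd)).continuousOn

theorem green_G' (hA : ∀ t, HasDerivAt A (A' t) t) (hB' : Continuous B')
    (hr : ∀ τ ∈ Icc (0 : ℝ) 1, ∀ t, 0 < e + τ * A t ∧ e + τ * A t < 2 * π) :
    ContinuousOn (Function.uncurry fun τ t => -Ls (e + τ * A t) * A t * (τ * B' t) +
      Dc (e + τ * A t) * B' t) (Icc 0 1 ×ˢ univ) := by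
  have hAc : Continuous A := continuous_iff_continuousAt.2 fun t => (hA t).continuousAt
  refine ContinuousOn.add
    (f := fun p : ℝ × ℝ => -Ls (e + p.1 * A p.2) * A p.2 * (p.1 * B' p.2))
    (g := fun p : ℝ × ℝ => Dc (e + p.1 * A p.2) * B' p.2)
    (ContinuousOn.mul (ContinuousOn.mul (green_L hA hr).neg ?_) ?_)
      (ContinuousOn.mul (green_D hA hr) ?_)
  · exact (hAc.comp continuous_snd).continuousOn
  · exact (continuous_fst.mul (hB'.comp continuous_snd)).continuousOn
  · exact (hB'.comp continuous_snd).continuousOn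

theorem green_main (hA : ∀ t, HasDerivAt A (A' t) t) (hB' : Continuous B')
    (hr : ∀ τ ∈ Icc (0 : ℝ) 1, ∀ t, 0 < e + τ * A t ∧ e + τ * A t < 2 * π) {τ : ℝ}
    (hτ : τ ∈ Ioo (0 : ℝ) 1) :
    HasDerivAt (fun τ => ∫ t in (0 : ℝ)..1, Dc (e + τ * A t) * (τ * B' t))
      (∫ t in (0 : ℝ)..1, (-Ls (e + τ * A t) * A t * (τ * B' t) +
      Dc (e + τ * A t) * B' t)) τ := by
  refine param_deriv (green_G hA hB' hr) (green_G' hA hB' hr) (fun x hx t => ?_) hτ
  have h1 := hr x (Ioo_subset_Icc_self hx) t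
  have h2 : HasDerivAt (fun x => e + x * A t) (A t) x := by
    simpa using ((hasDerivAt_id x).mul_const (A t)).const_add e
  have h3 : HasDerivAt (fun x => Dc (e + x * A t)) (-Ls (e + x * A t) * A t) x :=
    HasDerivAt.comp (h₂ := Dc) (h := fun x => e + x * A t) x (hasDerivAt_Dc h1.1 h1.2) h2
  have h4 : HasDerivAt (fun x => x * B' t) (B' t) x := by
    simpa using (hasDerivAt_id x).mul_const (B' t)
  exact h3.mul h4

theorem green_parts (hA : ∀ t, HasDerivAt A (A' t) t)
    (hB : ∀ t, HasDerivAt B (B' t) t) (hA' : Continuous A') (hB' : Continuous B')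
    (hp : ∀ t, A (t + 1) = A t) (hq : ∀ t, B (t + 1) = B t)
    (hr : ∀ τ ∈ Icc (0 : ℝ) 1, ∀ t, 0 < e + τ * A t ∧ e + τ * A t < 2 * π) {τ : ℝ}
    (hτ' : τ ∈ Icc (0 : ℝ) 1) (hcL : Continuous fun t => Ls (e + τ * A t))
    (hcD : Continuous fun t => Dc (e + τ * A t)) :
    ∫ t in (0 : ℝ)..1, (-Ls (e + τ * A t) * (τ * A' t) * B t + Dc (e + τ * A t) * B' t) = 0 := by
  have hBc : Continuous B := continuous_iff_continuousAt.2 fun t => (hB t).continuousAt
  have h5 : ∫ t in (0 : ℝ)..1, (-Ls (e + τ * A t) * (τ * A' t) * B t + Dc (e + τ * A t) * B' t) =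
      Dc (e + τ * A 1) * B 1 - Dc (e + τ * A 0) * B 0 := by
    refine integral_eq_sub_of_hasDerivAt (f := fun t => Dc (e + τ * A t) * B t) (fun t _ => ?_) ?_
    · have h1 := hr τ hτ' t
      have h2 : HasDerivAt (fun t => e + τ * A t) (τ * A' t) t := ((hA t).const_mul τ).const_add e
      have h3 : HasDerivAt (fun t => Dc (e + τ * A t)) (-Ls (e + τ * A t) * (τ * A' t)) t :=
        HasDerivAt.comp (h₂ := Dc) (h := fun t => e + τ * A t) t (hasDerivAt_Dc h1.1 h1.2) h2
      exact h3.mul (hB t)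
    · apply Continuous.intervalIntegrable
      fun_prop
  have hp1 : A 1 = A 0 := by simpa using hp 0
  have hq1 : B 1 = B 0 := by simpa using hq 0
  rw [hp1, hq1, sub_self] at h5
  exact h5

/-- the variation of the integral of `D(exp(i θ)) d B` under contraction -/
theorem green (hA : ∀ t, HasDerivAt A (A' t) t)
    (hB : ∀ t, HasDerivAt B (B' t) t) (hA' : Continuous A') (hB' : Continuous B')
    (hp : ∀ t, A (t + 1) = A t) (hq : ∀ t, B (t + 1) = B t)
    (hS : ∀ t, A t * B' t - A' t * B t = N * S t)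
    (hr : ∀ τ ∈ Icc (0 : ℝ) 1, ∀ t, 0 < e + τ * A t ∧ e + τ * A t < 2 * π) :
    ContinuousOn (fun τ => ∫ t in (0 : ℝ)..1, Dc (e + τ * A t) * (τ * B' t)) (Icc 0 1) ∧
    ∀ τ ∈ Ioo (0 : ℝ) 1, HasDerivAt (fun τ => ∫ t in (0 : ℝ)..1, Dc (e + τ * A t) * (τ * B' t))
      (-(N * ∫ t in (0 : ℝ)..1, τ * (Ls (e + τ * A t) * S t))) τ := by
  have hAc : Continuous A := continuous_iff_continuousAt.2 fun t => (hA t).continuousAt
  have hBc : Continuous B := continuous_iff_continuousAt.2 fun t => (hB t).continuousAt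
  refine ⟨param_cont (green_G hA hB' hr), fun τ hτ => ?_⟩
  refine (green_main hA hB' hr hτ).congr_deriv ?_
  have hτ' := Ioo_subset_Icc_self hτ
  have hcL : Continuous fun t => Ls (e + τ * A t) :=
    (green_L hA hr).comp_continuous (f := fun t => (τ, t)) (continuous_const.prodMk continuous_id)
      fun p => ⟨hτ', mem_univ _⟩
  have hcD : Continuous fun t => Dc (e + τ * A t) :=
    (green_D hA hr).comp_continuous (f := fun t => (τ, t)) (continuous_const.prodMk continuous_id)
      fun p => ⟨hτ', mem_univ _⟩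
  have h5 := green_parts hA hB hA' hB' hp hq hr hτ' hcL hcD
  have hS' : Continuous fun t => N * S t := by
    have : (fun t => N * S t) = fun t => A t * B' t - A' t * B t := funext fun t => (hS t).symm
    rw [this]
    fun_prop
  have h6 : (∫ t in (0 : ℝ)..1, (-Ls (e + τ * A t) * A t * (τ * B' t) +
      Dc (e + τ * A t) * B' t)) =
      (∫ t in (0 : ℝ)..1, (-Ls (e + τ * A t) * (τ * A' t) * B t + Dc (e + τ * A t) * B' t)) -
      ∫ t in (0 : ℝ)..1, τ * (Ls (e + τ * A t) * (N * S t)) := by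
    rw [← intervalIntegral.integral_sub]
    · refine integral_congr fun t _ => ?_
      have := hS t
      show -Ls (e + τ * A t) * A t * (τ * B' t) + Dc (e + τ * A t) * B' t =
        -Ls (e + τ * A t) * (τ * A' t) * B t + Dc (e + τ * A t) * B' t -
        τ * (Ls (e + τ * A t) * (N * S t))
      rw [← this]
      ring
    · apply Continuous.intervalIntegrable
      fun_prop
    · apply Continuous.intervalIntegrable
      exact continuous_const.mul (hcL.mul hS')
  rw [h6, h5, zero_sub, ← intervalIntegral.integral_const_mul]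
  congr 1
  refine integral_congr fun t _ => ?_
  show τ * (Ls (e + τ * A t) * (N * S t)) = N * (τ * (Ls (e + τ * A t) * S t))
  ring

end green

section level

variable {r : ℕ} {e k l : Fin r → ℝ} {n : Fin r → ℕ}

variable (e k l n) in
/-- the radius -/
noncomputable def Rr (t : ℝ) : ℝ := rad e k l n (2 * π * t)

variable (e k l n) in
/-- the first coordinate -/
noncomputable def Xx (t : ℝ) : ℝ := Rr e k l n t * Real.cos (2 * π * t)

variable (e k l n) in
/-- the second coordinate -/
noncomputable def Yy (t : ℝ) : ℝ := Rr e k l n t * Real.sin (2 * π * t)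

theorem Rr_periodic (t : ℝ) : Rr e k l n (t + 1) = Rr e k l n t := by
  unfold Rr
  rw [mul_add, mul_one, rad_periodic]

theorem Xx_periodic (t : ℝ) : Xx e k l n (t + 1) = Xx e k l n t := by
  unfold Xx
  rw [Rr_periodic, mul_add, mul_one, Real.cos_add_two_pi]

theorem Yy_periodic (t : ℝ) : Yy e k l n (t + 1) = Yy e k l n t := by
  unfold Yy
  rw [Rr_periodic, mul_add, mul_one, Real.sin_add_two_pi]

theorem th_eq (j : Fin r) (τ t : ℝ) :
    th e k l j (2 * π * t) (τ * Rr e k l n t) =
      e j + τ * (k j * Xx e k l n t + l j * Yy e k l n t) := by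
  unfold th Xx Yy
  ring

variable (hc : Cond e k l n)

include hc

theorem Cond.contDiff_Rr : ContDiff ℝ 2 (Rr e k l n) :=
  hc.contDiff_rad.comp (by fun_prop : ContDiff ℝ 2 fun t : ℝ => 2 * π * t)

theorem Cond.contDiff_Xx : ContDiff ℝ 2 (Xx e k l n) := by
  have := hc.contDiff_Rr
  unfold Xx
  fun_prop

theorem Cond.contDiff_Yy : ContDiff ℝ 2 (Yy e k l n) := by
  have := hc.contDiff_Rr
  unfold Yy
  fun_prop

theorem Cond.range (j : Fin r) {τ : ℝ} (hτ : τ ∈ Icc (0 : ℝ) 1) (t : ℝ) :
    0 < e j + τ * (k j * Xx e k l n t + l j * Yy e k l n t) ∧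
      e j + τ * (k j * Xx e k l n t + l j * Yy e k l n t) < 2 * π := by
  rw [← th_eq]
  have hR := hc.rad_pos (2 * π * t)
  exact hc.Ch_of_le (mul_nonneg hτ.1 hR.le) (mul_le_of_le_one_left hR.le hτ.2) j

theorem Cond.level (t : ℝ) :
    ∑ j, n j * Ls (e j + (k j * Xx e k l n t + l j * Yy e k l n t)) = 0 := by
  have h := hc.Hs_rad (2 * π * t)
  unfold Hs at h
  rw [← h]
  refine Finset.sum_congr rfl fun j _ => ?_
  have := th_eq (e := e) (k := k) (l := l) (n := n) j 1 t
  rw [one_mul, one_mul] at this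
  rw [← this]
  rfl

/-- the area identity: the integral is negative -/
theorem Cond.sum_neg (hN : ∀ j, k j ^ 2 + l j ^ 2 ≠ 0) :
    ∑ j, (n j : ℝ) / (k j ^ 2 + l j ^ 2) * ∫ t in (0 : ℝ)..1,
      Dc (e j + (k j * Xx e k l n t + l j * Yy e k l n t)) *
        deriv (fun s => k j * Yy e k l n s - l j * Xx e k l n s) t < 0 := by
  have hX := hc.contDiff_Xx
  have hY := hc.contDiff_Yy
  have hXd : ∀ t, HasDerivAt (Xx e k l n) (deriv (Xx e k l n) t) t := fun t =>
    (hX.differentiable (by norm_num) t).hasDerivAt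
  have hYd : ∀ t, HasDerivAt (Yy e k l n) (deriv (Yy e k l n) t) t := fun t =>
    (hY.differentiable (by norm_num) t).hasDerivAt
  have hXc : Continuous (deriv (Xx e k l n)) := hX.continuous_deriv (by norm_num)
  have hYc : Continuous (deriv (Yy e k l n)) := hY.continuous_deriv (by norm_num)
  have hRd : ∀ t, HasDerivAt (Rr e k l n) (deriv (Rr e k l n) t) t := fun t =>
    (hc.contDiff_Rr.differentiable (by norm_num) t).hasDerivAt
  have hRc : Continuous (Rr e k l n) := hc.contDiff_Rr.continuous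
  have hlin : ∀ t, HasDerivAt (fun t : ℝ => 2 * π * t) (2 * π) t := fun t => by
    simpa using (hasDerivAt_id t).const_mul (2 * π)
  have hXe : ∀ t, deriv (Xx e k l n) t = deriv (Rr e k l n) t * Real.cos (2 * π * t) +
      Rr e k l n t * (-Real.sin (2 * π * t) * (2 * π)) := fun t =>
    ((hRd t).mul (hlin t).cos).deriv
  have hYe : ∀ t, deriv (Yy e k l n) t = deriv (Rr e k l n) t * Real.sin (2 * π * t) +
      Rr e k l n t * (Real.cos (2 * π * t) * (2 * π)) := fun t =>
    ((hRd t).mul (hlin t).sin).deriv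
  have hBd : ∀ j t, HasDerivAt (fun s => k j * Yy e k l n s - l j * Xx e k l n s)
      (k j * deriv (Yy e k l n) t - l j * deriv (Xx e k l n) t) t := fun j t =>
    ((hYd t).const_mul _).sub ((hXd t).const_mul _)
  have hg := fun j => green (e := e j) (N := k j ^ 2 + l j ^ 2)
    (A := fun t => k j * Xx e k l n t + l j * Yy e k l n t)
    (A' := fun t => k j * deriv (Xx e k l n) t + l j * deriv (Yy e k l n) t)
    (B := fun t => k j * Yy e k l n t - l j * Xx e k l n t)
    (B' := fun t => k j * deriv (Yy e k l n) t - l j * deriv (Xx e k l n) t)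
    (S := fun t => 2 * π * Rr e k l n t ^ 2)
    (fun t => ((hXd t).const_mul _).add ((hYd t).const_mul _)) (hBd j)
    (by fun_prop) (by fun_prop) (fun t => by simp only [Xx_periodic, Yy_periodic])
    (fun t => by simp only [Xx_periodic, Yy_periodic]) (fun t => by
      simp only [hXe, hYe]
      unfold Xx Yy
      have := Real.sin_sq_add_cos_sq (2 * π * t)
      linear_combination (2 * π * Rr e k l n t ^ 2 * (k j ^ 2 + l j ^ 2)) * this)
    (fun τ hτ t => hc.range j hτ t)
  set F : ℝ → ℝ := fun τ => ∑ j, (n j : ℝ) / (k j ^ 2 + l j ^ 2) *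
    ∫ t in (0 : ℝ)..1, Dc (e j + τ * (k j * Xx e k l n t + l j * Yy e k l n t)) *
      (τ * (k j * deriv (Yy e k l n) t - l j * deriv (Xx e k l n) t)) with hF
  have hFc : ContinuousOn F (Icc 0 1) := by
    rw [hF]
    exact continuousOn_finsetSum _ fun j _ => continuousOn_const.mul (hg j).1
  have hHc : ∀ τ ∈ Icc (0 : ℝ) 1, ∀ j, Continuous fun t =>
      Ls (e j + τ * (k j * Xx e k l n t + l j * Yy e k l n t)) := by
    intro τ hτ j
    rw [continuous_iff_continuousAt]
    intro t
    have h1 := hc.range j hτ t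
    have h2 : Continuous fun t => e j + τ * (k j * Xx e k l n t + l j * Yy e k l n t) := by
      have := hX.continuous
      have := hY.continuous
      fun_prop
    exact (hasDerivAt_Ls h1.1 h1.2).continuousAt.comp
      (f := fun t => e j + τ * (k j * Xx e k l n t + l j * Yy e k l n t)) h2.continuousAt
  have hFd : ∀ τ ∈ Ioo (0 : ℝ) 1, HasDerivAt F (-∫ t in (0 : ℝ)..1,
      τ * (Hs e k l n (2 * π * t) (τ * Rr e k l n t) * (2 * π * Rr e k l n t ^ 2))) τ := by
    intro τ hτ
    have h1 : HasDerivAt F (∑ j, (n j : ℝ) / (k j ^ 2 + l j ^ 2) * (-((k j ^ 2 + l j ^ 2) *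
      ∫ t in (0 : ℝ)..1, τ * (Ls (e j + τ * (k j * Xx e k l n t + l j * Yy e k l n t)) *
        (2 * π * Rr e k l n t ^ 2))))) τ := by
      rw [hF]
      exact HasDerivAt.fun_sum fun j _ => ((hg j).2 τ hτ).const_mul _
    refine h1.congr_deriv ?_
    have h2 : ∀ t, τ * (Hs e k l n (2 * π * t) (τ * Rr e k l n t) * (2 * π * Rr e k l n t ^ 2)) =
        ∑ j, (n j : ℝ) * (τ * (Ls (e j + τ * (k j * Xx e k l n t + l j * Yy e k l n t)) *
        (2 * π * Rr e k l n t ^ 2))) := by
      intro t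
      unfold Hs
      rw [Finset.sum_mul, Finset.mul_sum]
      refine Finset.sum_congr rfl fun j _ => ?_
      rw [th_eq]
      ring
    simp only [h2]
    rw [intervalIntegral.integral_finsetSum, ← Finset.sum_neg_distrib]
    · refine Finset.sum_congr rfl fun j _ => ?_
      rw [intervalIntegral.integral_const_mul (n j : ℝ)]
      generalize (∫ t in (0 : ℝ)..1, τ * (Ls (e j + τ * (k j * Xx e k l n t + l j * Yy e k l n t)) *
        (2 * π * Rr e k l n t ^ 2))) = I
      have := hN j
      field_simp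
    · intro j _
      apply Continuous.intervalIntegrable
      have := hHc τ (Ioo_subset_Icc_self hτ) j
      fun_prop
  have hneg : ∀ τ ∈ interior (Icc (0 : ℝ) 1), deriv F τ < 0 := by
    intro τ hτ
    rw [interior_Icc] at hτ
    rw [(hFd τ hτ).deriv, neg_lt_zero]
    refine intervalIntegral_pos_of_pos_on ?_ ?_ zero_lt_one
    · apply Continuous.intervalIntegrable
      have h3 : Continuous fun t => Hs e k l n (2 * π * t) (τ * Rr e k l n t) := by
        unfold Hs
        refine continuous_finsetSum _ fun j _ => continuous_const.mul ?_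
        simp only [th_eq]
        exact hHc τ (Ioo_subset_Icc_self hτ) j
      fun_prop
    · intro t _
      have hR : 0 < Rr e k l n t := hc.rad_pos (2 * π * t)
      have h4 : 0 < Hs e k l n (2 * π * t) (τ * Rr e k l n t) := by
        refine hc.Hs_pos (mul_nonneg hτ.1.le hR.le) ?_
        exact mul_lt_of_lt_one_left hR hτ.2
      have := hτ.1
      positivity
  have hanti := strictAntiOn_of_deriv_neg (convex_Icc (0 : ℝ) 1) hFc hneg
  have h01 := hanti (left_mem_Icc.2 zero_le_one) (right_mem_Icc.2 zero_le_one) zero_lt_one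
  have hF0 : F 0 = 0 := by
    rw [hF]
    simp
  rw [hF0] at h01
  refine lt_of_eq_of_lt ?_ h01
  rw [hF]
  refine Finset.sum_congr rfl fun j _ => ?_
  congr 1
  refine integral_congr fun t _ => ?_
  simp only [one_mul]
  rw [(hBd j t).deriv]

end level

end Pool.Agent.N65.TK
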