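import Pool.Agent.N65.TK.BW
set_option autoImplicit false

/-!
The regulator along a closed path vanishes on the relations.
-/

namespace Pool.Agent.N65.TK

open Set MeasureTheory intervalIntegral Filter Topology Pool.Agent.W367.KT

section five

theorem D_real (a : ℝ) : D (a : ℂ) = 0 := by
  rcases le_total 1 a with h | h
  · exact D_real_one_le h
  · unfold D
    have h2 : (1 : ℂ) - a = ((1 - a : ℝ) : ℂ) := by push_cast; ring
    have e1 : (∫ t in (0 : ℝ)..1, Complex.arg (1 - t * (a : ℂ)) / t) = ∫ t in (0 : ℝ)..1, (0 : ℝ) := by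
      refine intervalIntegral.integral_congr_ae (Eventually.of_forall fun t ht => ?_)
      rw [uIoc_of_le zero_le_one] at ht
      have h3 : (1 : ℂ) - t * a = ((1 - t * a : ℝ) : ℂ) := by push_cast; ring
      have h4 : 0 ≤ 1 - t * a := by
        rcases le_total 0 a with h5 | h5
        · nlinarith [ht.1, ht.2]
        · nlinarith [ht.1, ht.2]
      rw [h3, Complex.arg_ofReal_of_nonneg h4, zero_div]
    rw [e1, h2, Complex.arg_ofReal_of_nonneg (by linarith)]
    simp

theorem D_path {f : ℝ → ℂ} {p q : ℂ} {t : ℝ} (hf : HasDerivAt f (p * f t) t)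
    (hq : q * (1 - f t) = -(p * f t)) (h0 : f t ≠ 0) (h1 : f t ≠ 1) :
    HasDerivAt (fun s => D (f s)) (Real.log ‖f t‖ * q.im - Real.log ‖1 - f t‖ * p.im) t := by
  refine (hasDerivAt_D hf h0 h1).congr_deriv ?_
  have h2 : 1 - f t ≠ 0 := sub_ne_zero.2 (Ne.symm h1)
  unfold eta
  rw [← hq, mul_div_cancel_right₀ _ h2, mul_div_cancel_right₀ _ h0]

/-- the alternating sum -/
noncomputable def five (x y : ℂ) : ℝ :=
  D x - D y + D (y / x) - D ((x - 1) * y / (x * (y - 1))) + D ((1 - x) / (1 - y))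

theorem hasDerivAt_five {X Y : ℝ → ℂ} {t : ℝ} {X' Y' : ℂ} (hX : HasDerivAt X X' t)
    (hY : HasDerivAt Y Y' t) (x0 : X t ≠ 0) (x1 : X t ≠ 1) (y0 : Y t ≠ 0) (y1 : Y t ≠ 1)
    (hxy : X t ≠ Y t) : HasDerivAt (fun s => five (X s) (Y s)) 0 t := by
  set x := X t with hx
  set y := Y t with hy
  have x2 : 1 - x ≠ 0 := sub_ne_zero.2 (Ne.symm x1)
  have y2 : 1 - y ≠ 0 := sub_ne_zero.2 (Ne.symm y1)
  have x3 : x - 1 ≠ 0 := sub_ne_zero.2 x1
  have y3 : y - 1 ≠ 0 := sub_ne_zero.2 y1
  have d : x - y ≠ 0 := sub_ne_zero.2 hxy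
  set p0 := X' / x with hp0
  set p1 := -X' / (1 - x) with hp1
  set q0 := Y' / y with hq0
  set q1 := -Y' / (1 - y) with hq1
  set n := (X' - Y') / (x - y) with hn
  have eX : X' = p0 * x := by rw [hp0]; field_simp
  have eY : Y' = q0 * y := by rw [hq0]; field_simp
  have e1 : p1 * (1 - x) = -(p0 * x) := by rw [hp1, hp0]; field_simp
  have e2 : q1 * (1 - y) = -(q0 * y) := by rw [hq1, hq0]; field_simp
  have en : n * (x - y) = p0 * x - q0 * y := by rw [hn, hp0, hq0]; field_simp
  have dX : HasDerivAt X (p0 * X t) t := by rw [← hx, ← eX]; exact hX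
  have dY : HasDerivAt Y (q0 * Y t) t := by rw [← hy, ← eY]; exact hY
  have D1 := D_path dX (by rw [← hx]; exact e1) x0 x1
  have D2 := D_path dY (by rw [← hy]; exact e2) y0 y1
  have h3 : HasDerivAt (fun s => Y s / X s) ((q0 - p0) * (y / x)) t := by
    refine (hY.div hX x0).congr_deriv ?_
    show (Y' * x - y * X') / x ^ 2 = _
    rw [eX, eY]
    field_simp
  have a0 : y / x ≠ 0 := div_ne_zero y0 x0
  have a1 : y / x ≠ 1 := by
    rw [Ne, div_eq_one_iff_eq x0]
    exact Ne.symm hxy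
  have D3 := D_path (f := fun s => Y s / X s) (p := q0 - p0) (q := n - p0) h3 (by
    show (n - p0) * (1 - y / x) = -((q0 - p0) * (y / x))
    field_simp
    linear_combination en) a0 a1
  have h4 : HasDerivAt (fun s => (X s - 1) * Y s / (X s * (Y s - 1)))
      ((p1 + q0 - p0 - q1) * ((x - 1) * y / (x * (y - 1)))) t := by
    refine ((((hX.sub_const 1).mul hY).div (hX.mul (hY.sub_const 1))
      (mul_ne_zero x0 y3))).congr_deriv ?_
    have f1 : p1 * (x - 1) = p0 * x := by linear_combination -e1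
    have f2 : q1 * (y - 1) = q0 * y := by linear_combination -e2
    show ((X' * y + (x - 1) * Y') * (x * (y - 1)) -
      (x - 1) * y * (X' * (y - 1) + x * Y')) / (x * (y - 1)) ^ 2 = _
    rw [div_eq_iff (pow_ne_zero 2 (mul_ne_zero x0 y3))]
    have f3 : (p1 + q0 - p0 - q1) * ((x - 1) * y / (x * (y - 1))) * (x * (y - 1)) ^ 2 =
      (p1 + q0 - p0 - q1) * ((x - 1) * y) * (x * (y - 1)) := by
      field_simp
    rw [f3, eX, eY]
    linear_combination (-(y * (x * (y - 1)))) * f1 + ((x - 1) * y * x) * f2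
  have b0 : (x - 1) * y / (x * (y - 1)) ≠ 0 := div_ne_zero (mul_ne_zero x3 y0) (mul_ne_zero x0 y3)
  have b1 : (x - 1) * y / (x * (y - 1)) ≠ 1 := by
    rw [Ne, div_eq_one_iff_eq (mul_ne_zero x0 y3)]
    intro h
    apply d
    linear_combination h
  have D4 := D_path (f := fun s => (X s - 1) * Y s / (X s * (Y s - 1))) (p := p1 + q0 - p0 - q1)
    (q := n - p0 - q1) h4 (by
    show (n - p0 - q1) * (1 - (x - 1) * y / (x * (y - 1))) =
      -((p1 + q0 - p0 - q1) * ((x - 1) * y / (x * (y - 1))))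
    have f1 : p1 * (x - 1) = p0 * x := by linear_combination -e1
    have f2 : q1 * (y - 1) = q0 * y := by linear_combination -e2
    have f3 : 1 - (x - 1) * y / (x * (y - 1)) = -(x - y) / (x * (y - 1)) := by
      field_simp
      ring
    rw [f3, ← mul_div_assoc, ← mul_div_assoc, ← neg_div]
    congr 1
    linear_combination (-1 : ℂ) * en + y * f1 - x * f2) b0 b1
  have h5 : HasDerivAt (fun s => (1 - X s) / (1 - Y s)) ((p1 - q1) * ((1 - x) / (1 - y))) t := by
    refine ((hX.const_sub 1).div (hY.const_sub 1) y2).congr_deriv ?_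
    show (-X' * (1 - y) - (1 - x) * -Y') / (1 - y) ^ 2 = _
    rw [div_eq_iff (pow_ne_zero 2 y2)]
    have f3 : (p1 - q1) * ((1 - x) / (1 - y)) * (1 - y) ^ 2 = (p1 - q1) * (1 - x) * (1 - y) := by
      field_simp
    rw [f3, eX, eY]
    linear_combination (-(1 - y)) * e1 + (1 - x) * e2
  have c0 : (1 - x) / (1 - y) ≠ 0 := div_ne_zero x2 y2
  have c1 : (1 - x) / (1 - y) ≠ 1 := by
    rw [Ne, div_eq_one_iff_eq y2]
    intro h
    apply d
    linear_combination -h
  have D5 := D_path (f := fun s => (1 - X s) / (1 - Y s)) (p := p1 - q1) (q := n - q1) h5 (by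
    show (n - q1) * (1 - (1 - x) / (1 - y)) = -((p1 - q1) * ((1 - x) / (1 - y)))
    have f3 : 1 - (1 - x) / (1 - y) = (x - y) / (1 - y) := by
      field_simp
      ring
    rw [f3, ← mul_div_assoc, ← mul_div_assoc, ← neg_div]
    congr 1
    linear_combination en + e1 - e2) c0 c1
  refine ((((D1.sub D2).add D3).sub D4).add D5).congr_deriv ?_
  show Real.log ‖x‖ * p1.im - Real.log ‖1 - x‖ * p0.im -
    (Real.log ‖y‖ * q1.im - Real.log ‖1 - y‖ * q0.im) +
    (Real.log ‖y / x‖ * (n - p0).im - Real.log ‖1 - y / x‖ * (q0 - p0).im) -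
    (Real.log ‖(x - 1) * y / (x * (y - 1))‖ * (n - p0 - q1).im -
      Real.log ‖1 - (x - 1) * y / (x * (y - 1))‖ * (p1 + q0 - p0 - q1).im) +
    (Real.log ‖(1 - x) / (1 - y)‖ * (n - q1).im - Real.log ‖1 - (1 - x) / (1 - y)‖ * (p1 - q1).im) = 0
  have nx : ‖x‖ ≠ 0 := norm_ne_zero_iff.2 x0
  have ny : ‖y‖ ≠ 0 := norm_ne_zero_iff.2 y0
  have nx1 : ‖1 - x‖ ≠ 0 := norm_ne_zero_iff.2 x2
  have ny1 : ‖1 - y‖ ≠ 0 := norm_ne_zero_iff.2 y2
  have nd : ‖x - y‖ ≠ 0 := norm_ne_zero_iff.2 d
  have l2 : Real.log ‖y / x‖ = Real.log ‖y‖ - Real.log ‖x‖ := by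
    rw [norm_div, Real.log_div ny nx]
  have l2' : Real.log ‖1 - y / x‖ = Real.log ‖x - y‖ - Real.log ‖x‖ := by
    rw [show 1 - y / x = (x - y) / x by field_simp, norm_div, Real.log_div nd nx]
  have l3 : Real.log ‖(x - 1) * y / (x * (y - 1))‖ = Real.log ‖1 - x‖ + Real.log ‖y‖ -
      (Real.log ‖x‖ + Real.log ‖1 - y‖) := by
    rw [norm_div, norm_mul, norm_mul x, norm_sub_rev x 1, norm_sub_rev y 1,
      Real.log_div (mul_ne_zero nx1 ny) (mul_ne_zero nx ny1), Real.log_mul nx1 ny,
      Real.log_mul nx ny1]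
  have l3' : Real.log ‖1 - (x - 1) * y / (x * (y - 1))‖ = Real.log ‖x - y‖ -
      (Real.log ‖x‖ + Real.log ‖1 - y‖) := by
    rw [show 1 - (x - 1) * y / (x * (y - 1)) = (x - y) / (x * (1 - y)) by
      field_simp; ring, norm_div, norm_mul x, Real.log_div nd (mul_ne_zero nx ny1),
      Real.log_mul nx ny1]
  have l4 : Real.log ‖(1 - x) / (1 - y)‖ = Real.log ‖1 - x‖ - Real.log ‖1 - y‖ := by
    rw [norm_div, Real.log_div nx1 ny1]
  have l4' : Real.log ‖1 - (1 - x) / (1 - y)‖ = Real.log ‖x - y‖ - Real.log ‖1 - y‖ := by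
    rw [show 1 - (1 - x) / (1 - y) = (x - y) / (1 - y) by
      field_simp; ring, norm_div, Real.log_div nd ny1]
  rw [l2, l2', l3, l3', l4, l4']
  simp only [Complex.sub_im, Complex.add_im]
  ring

theorem five_real (x y : ℝ) : five x y = 0 := by
  unfold five
  have h1 : (y : ℂ) / x = ((y / x : ℝ) : ℂ) := by push_cast; rfl
  have h2 : ((x : ℂ) - 1) * y / (x * (y - 1)) = (((x - 1) * y / (x * (y - 1)) : ℝ) : ℂ) := by
    push_cast; rfl
  have h3 : (1 - (x : ℂ)) / (1 - y) = (((1 - x) / (1 - y) : ℝ) : ℂ) := by push_cast; rfl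
  rw [h1, h2, h3]
  simp only [D_real]
  ring

theorem five_of_path {x y : ℂ} (x1 y1 : ℝ)
    (hx : ∀ t ∈ Icc (0 : ℝ) 1, x + t * (x1 - x) ≠ 0 ∧ x + t * (x1 - x) ≠ 1)
    (hy : ∀ t ∈ Icc (0 : ℝ) 1, y + t * (y1 - y) ≠ 0 ∧ y + t * (y1 - y) ≠ 1)
    (hxy : ∀ t ∈ Icc (0 : ℝ) 1, x + t * (x1 - x) ≠ y + t * (y1 - y)) : five x y = 0 := by
  have hlin : ∀ (z : ℂ) (z1 : ℝ) (t : ℝ), HasDerivAt (fun s : ℝ => z + s * (z1 - z)) (z1 - z) t := by
    intro z z1 t
    have h1 : HasDerivAt (fun s : ℝ => (s : ℂ)) 1 t := Complex.ofRealCLM.hasDerivAt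
    simpa using (h1.mul_const ((z1 : ℂ) - z)).const_add z
  have h := is_const_of_deriv_eq_zero_on_Icc
    (fun s => five (x + s * (x1 - x)) (y + s * (y1 - y))) (fun t ht =>
      hasDerivAt_five (hlin x x1 t) (hlin y y1 t) (hx t ht).1 (hx t ht).2 (hy t ht).1 (hy t ht).2
        (hxy t ht))
  simp only [Complex.ofReal_one, one_mul, add_sub_cancel, Complex.ofReal_zero, zero_mul,
    add_zero] at h
  rw [← h, five_real]

theorem five_zero {x y : ℂ} (x0 : x ≠ 0) (x1 : x ≠ 1) (y0 : y ≠ 0) (y1 : y ≠ 1) (hxy : x ≠ y) :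
    five x y = 0 := by
  have him : ∀ (z : ℂ) (c t : ℝ), (z + t * (c - z)).im = (1 - t) * z.im := by
    intro z c t
    simp
    ring
  have hre : ∀ (z : ℂ) (c t : ℝ), (z + t * (c - z)).re = (1 - t) * z.re + t * c := by
    intro z c t
    simp
    ring
  -- the point moves to a real point `c`
  have key : ∀ (z : ℂ) (c : ℝ), z.im ≠ 0 → c ≠ 0 → c ≠ 1 → ∀ t ∈ Icc (0 : ℝ) 1,
      z + t * (c - z) ≠ 0 ∧ z + t * (c - z) ≠ 1 := by
    intro z c hz c0 c1 t _
    have h0 : ∀ a : ℝ, z + t * (c - z) = a → c = a := by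
      intro a h
      have h1 := him z c t
      rw [h, Complex.ofReal_im] at h1
      have h2 : t = 1 := by
        have := (mul_eq_zero.1 h1.symm).resolve_right hz
        linarith
      rw [h2, Complex.ofReal_one, one_mul, add_sub_cancel] at h
      exact_mod_cast h
    exact ⟨fun h => c0 (h0 0 (by rw [h]; simp)), fun h => c1 (h0 1 (by rw [h]; simp))⟩
  have stay : ∀ (z : ℂ), z.im = 0 → ∀ t : ℝ, z + t * ((z.re : ℂ) - z) = z := by
    intro z hz t
    have : z = (z.re : ℂ) := by apply Complex.ext <;> simp [hz]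
    rw [← this, sub_self, mul_zero, add_zero]
  by_cases hx : x.im = 0 <;> by_cases hy : y.im = 0
  · have h1 : x = (x.re : ℂ) := by apply Complex.ext <;> simp [hx]
    have h2 : y = (y.re : ℂ) := by apply Complex.ext <;> simp [hy]
    rw [h1, h2, five_real]
  · obtain ⟨c, hc0, hc1, hc2⟩ : ∃ c : ℝ, c ≠ 0 ∧ c ≠ 1 ∧ c ≠ x.re := by
      refine ⟨|x.re| + 2, ?_, ?_, ?_⟩
      · have := abs_nonneg x.re
        linarith
      · have := abs_nonneg x.re
        linarith
      · have := le_abs_self x.re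
        linarith
    refine five_of_path x.re c ?_ (key y c hy hc0 hc1) ?_
    · intro t _
      rw [stay x hx]
      exact ⟨x0, x1⟩
    · intro t _ h
      rw [stay x hx] at h
      have h1 := congrArg Complex.im h
      rw [him, hx] at h1
      have h2 : t = 1 := by
        have := (mul_eq_zero.1 h1.symm).resolve_right hy
        linarith
      rw [h2, Complex.ofReal_one, one_mul, add_sub_cancel] at h
      apply hc2
      rw [h, Complex.ofReal_re]
  · obtain ⟨c, hc0, hc1, hc2⟩ : ∃ c : ℝ, c ≠ 0 ∧ c ≠ 1 ∧ c ≠ y.re := by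
      refine ⟨|y.re| + 2, ?_, ?_, ?_⟩
      · have := abs_nonneg y.re
        linarith
      · have := abs_nonneg y.re
        linarith
      · have := le_abs_self y.re
        linarith
    refine five_of_path c y.re (key x c hx hc0 hc1) ?_ ?_
    · intro t _
      rw [stay y hy]
      exact ⟨y0, y1⟩
    · intro t _ h
      rw [stay y hy] at h
      have h1 := congrArg Complex.im h
      rw [him, hy] at h1
      have h2 : t = 1 := by
        have := (mul_eq_zero.1 h1).resolve_right hx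
        linarith
      rw [h2, Complex.ofReal_one, one_mul, add_sub_cancel] at h
      apply hc2
      rw [← h, Complex.ofReal_re]
  · have fin : ∀ a b : ℝ, a ≠ b → (x.im = y.im → 0 < (x.re - y.re) * (a - b)) →
        ∀ t ∈ Icc (0 : ℝ) 1, x + t * (a - x) ≠ y + t * (b - y) := by
      intro a b hab hs t ht h
      have h1 := congrArg Complex.im h
      have h2 := congrArg Complex.re h
      rw [him, him] at h1
      rw [hre, hre] at h2
      by_cases ht1 : t = 1
      · rw [ht1] at h2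
        apply hab
        linarith
      · have h3 : 1 - t ≠ 0 := fun h => ht1 (by linarith)
        have h4 : x.im = y.im := mul_left_cancel₀ h3 h1
        have h5 := hs h4
        have h6 : (1 - t) * (x.re - y.re) + t * (a - b) = 0 := by linarith
        have ht2 : t < 1 := lt_of_le_of_ne ht.2 ht1
        have h7 : 0 < (x.re - y.re) * ((1 - t) * (x.re - y.re) + t * (a - b)) := by
          have h8 : x.re - y.re ≠ 0 := by
            intro h
            rw [h, zero_mul] at h5
            exact lt_irrefl _ h5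
          have h9 : 0 < (x.re - y.re) ^ 2 := by positivity
          have h10 : 0 < 1 - t := by linarith
          nlinarith [mul_pos h10 h9, mul_nonneg ht.1 h5.le]
        rw [h6, mul_zero] at h7
        exact lt_irrefl _ h7
    by_cases hlt : y.re < x.re
    · refine five_of_path 3 2 (key x 3 hx (by norm_num) (by norm_num))
        (key y 2 hy (by norm_num) (by norm_num)) (fin 3 2 (by norm_num) fun _ => ?_)
      nlinarith
    · refine five_of_path 2 3 (key x 2 hx (by norm_num) (by norm_num))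
        (key y 3 hy (by norm_num) (by norm_num)) (fin 2 3 (by norm_num) fun h => ?_)
      have h1 : x.re ≠ y.re := fun h' => hxy (Complex.ext h' h)
      have h2 : x.re < y.re := lt_of_le_of_ne (not_lt.1 hlt) h1
      nlinarith

end five

section trilog

/-- `Li(z) / z` with the singularity at `0` removed -/
noncomputable def g3 : ℂ → ℂ := dslope Li 0

theorem Li_zero : Li 0 = 0 := by
  unfold Li
  simp

theorem g3_of_ne {z : ℂ} (hz : z ≠ 0) : g3 z = Li z / z := by
  unfold g3
  rw [dslope_of_ne _ hz, slope_def_field, Li_zero, sub_zero, sub_zero]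

theorem differentiableOn_g3 : DifferentiableOn ℂ g3 S1 := by
  unfold g3
  rw [Complex.differentiableOn_dslope]
  · intro z hz
    exact (hasDerivAt_Li hz).differentiableAt.differentiableWithinAt
  · apply isOpen_S1.mem_nhds
    show (1:ℂ) - 0 ∈ Complex.slitPlane
    simp

/-- the trilogarithm on `S1` -/
noncomputable def Li3 (z : ℂ) : ℂ := ∫ t in (0:ℝ)..1, z * g3 (t * z)

theorem hasDerivAt_Li3 {z : ℂ} (hz : z ∈ S1) : HasDerivAt Li3 (g3 z) z :=
  hasDerivAt_prim isOpen_S1 star_S1 differentiableOn_g3 hz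

/-- the single-valued trilogarithm on `S1` -/
noncomputable def M1 (z : ℂ) : ℝ :=
  -(Li3 z).re + Real.log ‖z‖ * (Li z).re + 1 / 3 * Real.log ‖z‖ ^ 2 * Real.log ‖1 - z‖

/-- the form of `{z}_2 ⊗ z` -/
noncomputable def tau (z z' : ℂ) : ℝ :=
  D z * (z' / z).im - 1 / 3 * Real.log ‖z‖ *
    (Real.log ‖1 - z‖ * (z' / z).re - Real.log ‖z‖ * (-z' / (1 - z)).re)

theorem hasDerivAt_M1 {u : ℝ → ℂ} {u' : ℂ} {t : ℝ} (hu : HasDerivAt u u' t) (h0 : u t ≠ 0)
    (h1 : u t ∈ S1) : HasDerivAt (fun s => M1 (u s)) (tau (u t) u') t := by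
  have hne1 : 1 - u t ≠ 0 := Complex.slitPlane_ne_zero h1
  have hL : HasDerivAt (fun s => Li (u s)) (gfun (u t) * u') t := (hasDerivAt_Li h1).comp t hu
  have hL3 : HasDerivAt (fun s => Li3 (u s)) (g3 (u t) * u') t := (hasDerivAt_Li3 h1).comp t hu
  have hl := hasDerivAt_logNorm hu h0
  have hl1 := hasDerivAt_logNorm (u := fun s => 1 - u s) (hu.const_sub 1) hne1
  have h := ((hd_re hL3).neg.add (hl.mul (hd_re hL))).add
    (((hl.pow 2).const_mul (1 / 3)).mul hl1)
  refine HasDerivAt.congr_deriv (f := fun s => M1 (u s)) h ?_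
  have e0 : D (u t) = (Li (u t)).im + (Complex.log (1 - u t)).im * Real.log ‖u t‖ := D_of_mem h1
  unfold tau
  rw [e0, gfun_of_ne h0, g3_of_ne h0]
  have e1 : -Complex.log (1 - u t) / u t * u' = -(Complex.log (1 - u t) * (u' / u t)) := by
    field_simp
  have e2 : Li (u t) / u t * u' = Li (u t) * (u' / u t) := by
    field_simp
  rw [e1, e2, Complex.neg_re, Complex.mul_re, Complex.mul_re, Complex.log_re, Pi.pow_apply]
  push_cast
  ring

/-- the single-valued trilogarithm on `S2` -/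
noncomputable def M2 (z : ℂ) : ℝ := M1 z⁻¹

theorem D_of_mem_S2 {z : ℂ} (h2 : z ∈ S2) : D z = -D z⁻¹ := by
  rw [D_of_mem h2.2, D_eq_BW]
  unfold BW
  split_ifs with h
  · rw [D1_eq_D2 (mem_neg_slit_of h h2)]
    rfl
  · rfl

theorem hasDerivAt_M2 {u : ℝ → ℂ} {u' : ℂ} {t : ℝ} (hu : HasDerivAt u u' t)
    (h1 : u t ≠ 1) (h2 : u t ∈ S2) : HasDerivAt (fun s => M2 (u s)) (tau (u t) u') t := by
  have h0 := h2.1
  have hi : HasDerivAt (fun s => (u s)⁻¹) (-u' / (u t) ^ 2) t := hu.inv h0
  have h := (hasDerivAt_M1 hi (inv_ne_zero h0) h2.2)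
  refine h.congr_deriv ?_
  unfold tau
  have h10 : 1 - u t ≠ 0 := sub_ne_zero.2 (Ne.symm h1)
  have hu1 : u t - 1 ≠ 0 := sub_ne_zero.2 h1
  have e1 : -(-u' / u t ^ 2) / (1 - (u t)⁻¹) = -u' / (1 - u t) - u' / u t := by
    have : 1 - (u t)⁻¹ = (u t - 1) / u t := by field_simp
    rw [this]
    field_simp
    ring
  have e2 : -u' / u t ^ 2 / (u t)⁻¹ = -(u' / u t) := by field_simp
  have e3 : Real.log ‖1 - (u t)⁻¹‖ = Real.log ‖1 - u t‖ - Real.log ‖u t‖ := by
    have : 1 - (u t)⁻¹ = -(1 - u t) / u t := by field_simp; ring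
    rw [this, norm_div, norm_neg, Real.log_div (norm_ne_zero_iff.2 h10) (norm_ne_zero_iff.2 h0)]
  rw [e1, e2, e3, norm_inv, Real.log_inv, D_of_mem_S2 h2, Complex.sub_re, Complex.neg_re,
    Complex.neg_im]
  ring

theorem M1_eq_M2 {z : ℂ} (hz : -z ∈ Complex.slitPlane) : M1 z = M2 z := by
  have hpath : ∀ s ∈ Icc (0:ℝ) 1, -((-1 : ℂ) + s * (z + 1)) ∈ Complex.slitPlane := by
    intro s hs
    have h := StarConvex.add_smul_mem Complex.starConvex_one_slitPlane
      (show (1:ℂ) + (-z - 1) ∈ Complex.slitPlane by simpa using hz) hs.1 hs.2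
    have : -((-1 : ℂ) + s * (z + 1)) = 1 + s • (-z - 1) := by
      rw [Complex.real_smul]; ring
    rw [this]; exact h
  have hder : ∀ s : ℝ, HasDerivAt (fun s : ℝ => (-1 : ℂ) + s * (z + 1)) (z + 1) s := by
    intro s
    have h0 : HasDerivAt (fun t : ℝ => (t : ℂ)) 1 s := by
      simpa using (hasDerivAt_id s).ofReal_comp
    simpa using (h0.mul_const (z + 1)).const_add (-1 : ℂ)
  set φ : ℝ → ℝ := fun s => M1 ((-1 : ℂ) + s * (z + 1)) - M2 ((-1 : ℂ) + s * (z + 1)) with hφ
  have hφd : ∀ s ∈ Icc (0:ℝ) 1, HasDerivAt φ 0 s := by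
    intro s hs
    have hm := hpath s hs
    have hS1 := mem_S1_of_neg_slit hm
    have hS2 := mem_S2_of_neg_slit hm
    have hne1 : (-1 : ℂ) + s * (z + 1) ≠ 1 := by
      intro h
      rw [h] at hS1
      unfold S1 at hS1
      simp at hS1
    have := (hasDerivAt_M1 (hder s) hS2.1 hS1).sub (hasDerivAt_M2 (hder s) hne1 hS2)
    exact this.congr_deriv (sub_self _)
  have hconst : φ 1 = φ 0 := is_const_of_deriv_eq_zero_on_Icc φ hφd
  have e1 : φ 1 = M1 z - M2 z := by
    simp only [hφ]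
    rw [show (-1 : ℂ) + ((1:ℝ):ℂ) * (z + 1) = z by push_cast; ring]
  have e0 : φ 0 = 0 := by
    simp only [hφ]
    rw [show (-1 : ℂ) + ((0:ℝ):ℂ) * (z + 1) = -1 by push_cast; ring]
    unfold M2
    have : ((-1 : ℂ))⁻¹ = -1 := by norm_num
    rw [this, sub_self]
  linarith [hconst, e1, e0]

/-- the single-valued trilogarithm -/
noncomputable def Mf (z : ℂ) : ℝ := open Classical in if z ∈ S1 then M1 z else M2 z

theorem hasDerivAt_Mf {u : ℝ → ℂ} {u' : ℂ} {t : ℝ} (hu : HasDerivAt u u' t)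
    (h0 : u t ≠ 0) (h1 : u t ≠ 1) : HasDerivAt (fun s => Mf (u s)) (tau (u t) u') t := by
  by_cases h : u t ∈ S1
  · refine (hasDerivAt_M1 hu h0 h).congr_of_eventuallyEq ?_
    filter_upwards [hu.continuousAt.preimage_mem_nhds (isOpen_S1.mem_nhds h)] with s hs
    exact if_pos hs
  · have h2 := mem_S2_of_not_mem_S1 h1 h
    refine (hasDerivAt_M2 hu h1 h2).congr_of_eventuallyEq ?_
    filter_upwards [hu.continuousAt.preimage_mem_nhds (isOpen_S2.mem_nhds h2)] with s hs
    unfold Mf
    split_ifs with hS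
    · exact M1_eq_M2 (mem_neg_slit_of hS hs)
    · rfl

end trilog

section reg

variable {A : Type*} [CommRing A] (γ : Path A)

theorem Path.ne_zero (f : Aˣ) (t : ℝ) : γ.e t f ≠ 0 := (f.isUnit.map (γ.e t)).ne_zero

theorem Path.co (f : Pt A) (t : ℝ) : γ.e t f.co = 1 - γ.e t f.1 := by
  have : ((f.co : Aˣ) : A) = 1 - f.1 := rfl
  rw [this, map_sub, map_one]

theorem Path.ne_one (f : Pt A) (t : ℝ) : γ.e t f.1 ≠ 1 := by
  intro h
  have := γ.ne_zero f.co t
  rw [γ.co, h, sub_self] at this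
  exact this rfl

/-- the logarithmic derivative -/
noncomputable def Path.ld (f : Aˣ) (t : ℝ) : ℂ := deriv (fun s => γ.e s f) t / γ.e t f

/-- the logarithm of the absolute value -/
noncomputable def Path.ln (f : Aˣ) (t : ℝ) : ℝ := Real.log ‖γ.e t f‖

theorem Path.hd (f : Aˣ) (t : ℝ) : HasDerivAt (fun s => γ.e s f) (deriv (fun s => γ.e s f) t) t :=
  ((γ.smooth f).differentiable (by norm_num) t).hasDerivAt

theorem Path.ld_mul (f g : Aˣ) (t : ℝ) : γ.ld (f * g) t = γ.ld f t + γ.ld g t := by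
  have h1 : deriv (fun s => γ.e s ((f * g : Aˣ) : A)) t =
      deriv (fun s => γ.e s f) t * γ.e t g + γ.e t f * deriv (fun s => γ.e s g) t := by
    have h2 : (fun s => γ.e s ((f * g : Aˣ) : A)) = fun s => γ.e s f * γ.e s g := by
      funext s
      rw [Units.val_mul, map_mul]
    rw [h2]
    exact ((γ.hd f t).mul (γ.hd g t)).deriv
  unfold Path.ld
  rw [h1, Units.val_mul, map_mul]
  have := γ.ne_zero f t
  have := γ.ne_zero g t
  field_simp

theorem Path.ln_mul (f g : Aˣ) (t : ℝ) : γ.ln (f * g) t = γ.ln f t + γ.ln g t := by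
  unfold Path.ln
  rw [Units.val_mul, map_mul, norm_mul, Real.log_mul (norm_ne_zero_iff.2 (γ.ne_zero f t))
    (norm_ne_zero_iff.2 (γ.ne_zero g t))]

theorem Path.ld_co (f : Pt A) (t : ℝ) :
    γ.ld f.co t = -deriv (fun s => γ.e s f.1) t / (1 - γ.e t f.1) := by
  unfold Path.ld
  rw [γ.co]
  congr 1
  have h2 : (fun s => γ.e s (f.co : A)) = fun s => 1 - γ.e s f.1 := by
    funext s
    rw [γ.co]
  rw [h2]
  exact ((γ.hd f.1 t).const_sub 1).deriv

/-- the integrand -/
noncomputable def Path.fr (f : Pt A) (g : Aˣ) (t : ℝ) : ℝ :=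
  D (γ.e t f.1) * (γ.ld g t).im - 1 / 3 * γ.ln g t *
    (γ.ln f.co t * (γ.ld f.1 t).re - γ.ln f.1 t * (γ.ld f.co t).re)

theorem Path.reg_br (f : Pt A) (g : Aˣ) : γ.reg (br f g) = ∫ t in (0 : ℝ)..1, γ.fr f g t := by
  unfold Path.reg br
  rw [Finsupp.linearCombination_single, one_smul]
  refine integral_congr fun t _ => ?_
  show frm _ _ _ _ = _
  unfold frm Path.fr
  rw [γ.ld_co]
  unfold Path.ln Path.ld
  rw [γ.co]

theorem Path.cont (f : Aˣ) : Continuous fun s => γ.e s f := (γ.smooth f).continuous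

theorem Path.cont_ld (f : Aˣ) : Continuous (γ.ld f) :=
  ((γ.smooth f).continuous_deriv (by norm_num)).div (γ.cont f) (γ.ne_zero f)

theorem Path.cont_ln (f : Aˣ) : Continuous (γ.ln f) :=
  (γ.cont f).norm.log fun t => norm_ne_zero_iff.2 (γ.ne_zero f t)

theorem Path.cont_D (f : Pt A) : Continuous fun t => D (γ.e t f.1) :=
  continuous_iff_continuousAt.2 fun t =>
    (hasDerivAt_D (γ.hd f.1 t) (γ.ne_zero f.1 t) (γ.ne_one f t)).continuousAt

theorem Path.cont_fr (f : Pt A) (g : Aˣ) : Continuous (γ.fr f g) := by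
  unfold Path.fr
  have h1 := γ.cont_D f
  have h2 := Complex.continuous_im.comp (γ.cont_ld g)
  have h3 := γ.cont_ln g
  have h4 := γ.cont_ln f.co
  have h5 := γ.cont_ln f.1
  have h6 := Complex.continuous_re.comp (γ.cont_ld f.1)
  have h7 := Complex.continuous_re.comp (γ.cont_ld f.co)
  exact (h1.mul h2).sub ((continuous_const.mul h3).mul ((h4.mul h6).sub (h5.mul h7)))

theorem Path.int_fr (f : Pt A) (g : Aˣ) : IntervalIntegrable (γ.fr f g) volume 0 1 :=
  (γ.cont_fr f g).intervalIntegrable _ _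

/-- The regulator along a closed path vanishes on the relations. -/
theorem Path.reg_of_mem {s : FS A} (hs : s ∈ Rels A) : γ.reg s = 0 := by
  have hle : Rels A ≤ LinearMap.ker γ.reg := by
    unfold Rels
    rw [Submodule.span_le]
    rintro s ((⟨f, g, h, rfl⟩ | ⟨x, y, a, b, c, g, ⟨ha, hb, hc⟩, rfl⟩) | ⟨f, rfl⟩)
    · rw [SetLike.mem_coe, LinearMap.mem_ker, map_sub, map_sub, γ.reg_br, γ.reg_br, γ.reg_br,
        ← intervalIntegral.integral_sub (γ.int_fr _ _) (γ.int_fr _ _),
        ← intervalIntegral.integral_sub ((γ.int_fr _ _).sub (γ.int_fr _ _)) (γ.int_fr _ _)]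
      refine (integral_congr (g := fun _ => (0 : ℝ)) fun t _ => ?_).trans
        intervalIntegral.integral_zero
      show γ.fr f (g * h) t - γ.fr f g t - γ.fr f h t = 0
      unfold Path.fr
      rw [γ.ld_mul, γ.ln_mul, Complex.add_im]
      ring
    · rw [SetLike.mem_coe, LinearMap.mem_ker, map_add, map_sub, map_add, map_sub, γ.reg_br,
        γ.reg_br, γ.reg_br, γ.reg_br, γ.reg_br,
        ← intervalIntegral.integral_sub (γ.int_fr _ _) (γ.int_fr _ _),
        ← intervalIntegral.integral_add ((γ.int_fr _ _).sub (γ.int_fr _ _)) (γ.int_fr _ _),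
        ← intervalIntegral.integral_sub (((γ.int_fr _ _).sub (γ.int_fr _ _)).add (γ.int_fr _ _))
          (γ.int_fr _ _),
        ← intervalIntegral.integral_add ((((γ.int_fr _ _).sub (γ.int_fr _ _)).add
          (γ.int_fr _ _)).sub (γ.int_fr _ _)) (γ.int_fr _ _)]
      refine (integral_congr (g := fun _ => (0 : ℝ)) fun t _ => ?_).trans
        intervalIntegral.integral_zero
      show γ.fr x g t - γ.fr y g t + γ.fr a g t - γ.fr b g t + γ.fr c g t = 0
      -- the relations between units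
      have ra : a.1 * x.1 = y.1 := Units.ext (by rw [Units.val_mul]; exact ha)
      have rb : b.1 * (x.1 * y.co) = x.co * y.1 := by
        ext1
        simp only [Units.val_mul]
        show (b.1 : A) * (x.1 * (1 - y.1)) = (1 - x.1) * y.1
        linear_combination -hb
      have rc : c.1 * y.co = x.co := by
        ext1
        simp only [Units.val_mul]
        show (c.1 : A) * (1 - y.1) = 1 - x.1
        exact hc
      set n : Aˣ := a.co * x.1 with hn
      have rb' : b.co * (x.1 * y.co) = n := by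
        rw [hn]
        ext1
        simp only [Units.val_mul]
        show (1 - (b.1 : A)) * (x.1 * (1 - y.1)) = (1 - a.1) * x.1
        linear_combination hb + ha
      have rc' : c.co * y.co = n := by
        rw [hn]
        ext1
        simp only [Units.val_mul]
        show (1 - (c.1 : A)) * (1 - y.1) = (1 - a.1) * x.1
        linear_combination -hc + ha
      have va : γ.e t a.1 = γ.e t y.1 / γ.e t x.1 := by
        rw [eq_div_iff (γ.ne_zero _ _), ← map_mul, ha]
      have hy1 : γ.e t y.1 - 1 ≠ 0 := sub_ne_zero.2 (γ.ne_one y t)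
      have hx1 : γ.e t x.1 - 1 ≠ 0 := sub_ne_zero.2 (γ.ne_one x t)
      have hy2 : 1 - γ.e t y.1 ≠ 0 := sub_ne_zero.2 (Ne.symm (γ.ne_one y t))
      have vb : γ.e t b.1 = (γ.e t x.1 - 1) * γ.e t y.1 / (γ.e t x.1 * (γ.e t y.1 - 1)) := by
        rw [eq_div_iff (mul_ne_zero (γ.ne_zero _ _) hy1)]
        have := congrArg (γ.e t) hb
        simpa only [map_mul, map_sub, map_one] using this
      have vc : γ.e t c.1 = (1 - γ.e t x.1) / (1 - γ.e t y.1) := by
        rw [eq_div_iff hy2]
        have := congrArg (γ.e t) hc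
        simpa only [map_mul, map_sub, map_one] using this
      have hxy : γ.e t x.1 ≠ γ.e t y.1 := by
        intro h
        apply γ.ne_one a t
        rw [va, h, div_self (γ.ne_zero _ _)]
      have hfive := five_zero (γ.ne_zero x.1 t) (γ.ne_one x t) (γ.ne_zero y.1 t) (γ.ne_one y t) hxy
      unfold five at hfive
      rw [← va, ← vb, ← vc] at hfive
      have la : γ.ld a.1 t = γ.ld y.1 t - γ.ld x.1 t := by
        rw [← ra, γ.ld_mul]; ring
      have la' : γ.ln a.1 t = γ.ln y.1 t - γ.ln x.1 t := by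
        rw [← ra, γ.ln_mul]; ring
      have ka : γ.ld a.co t = γ.ld n t - γ.ld x.1 t := by
        rw [hn, γ.ld_mul]; ring
      have ka' : γ.ln a.co t = γ.ln n t - γ.ln x.1 t := by
        rw [hn, γ.ln_mul]; ring
      have lb : γ.ld b.1 t = γ.ld x.co t + γ.ld y.1 t - γ.ld x.1 t - γ.ld y.co t := by
        have h := congrArg (fun u => γ.ld u t) rb
        simp only [γ.ld_mul] at h
        linear_combination h
      have lb' : γ.ln b.1 t = γ.ln x.co t + γ.ln y.1 t - γ.ln x.1 t - γ.ln y.co t := by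
        have h := congrArg (fun u => γ.ln u t) rb
        simp only [γ.ln_mul] at h
        linear_combination h
      have kb : γ.ld b.co t = γ.ld n t - γ.ld x.1 t - γ.ld y.co t := by
        have h := congrArg (fun u => γ.ld u t) rb'
        simp only [γ.ld_mul] at h
        linear_combination h
      have kb' : γ.ln b.co t = γ.ln n t - γ.ln x.1 t - γ.ln y.co t := by
        have h := congrArg (fun u => γ.ln u t) rb'
        simp only [γ.ln_mul] at h
        linear_combination h
      have lc : γ.ld c.1 t = γ.ld x.co t - γ.ld y.co t := by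
        have h := congrArg (fun u => γ.ld u t) rc
        simp only [γ.ld_mul] at h
        linear_combination h
      have lc' : γ.ln c.1 t = γ.ln x.co t - γ.ln y.co t := by
        have h := congrArg (fun u => γ.ln u t) rc
        simp only [γ.ln_mul] at h
        linear_combination h
      have kc : γ.ld c.co t = γ.ld n t - γ.ld y.co t := by
        have h := congrArg (fun u => γ.ld u t) rc'
        simp only [γ.ld_mul] at h
        linear_combination h
      have kc' : γ.ln c.co t = γ.ln n t - γ.ln y.co t := by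
        have h := congrArg (fun u => γ.ln u t) rc'
        simp only [γ.ln_mul] at h
        linear_combination h
      unfold Path.fr
      rw [la, la', ka, ka', lb, lb', kb, kb', lc, lc', kc, kc']
      simp only [Complex.sub_re, Complex.add_re]
      linear_combination (γ.ld g t).im * hfive
    · rw [SetLike.mem_coe, LinearMap.mem_ker, γ.reg_br]
      have h1 : ∀ t, HasDerivAt (fun s => Mf (γ.e s f.1)) (γ.fr f f.1 t) t := by
        intro t
        refine (hasDerivAt_Mf (γ.hd f.1 t) (γ.ne_zero f.1 t) (γ.ne_one f t)).congr_deriv ?_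
        unfold Path.fr tau
        rw [γ.ld_co]
        unfold Path.ln Path.ld
        rw [γ.co]
      rw [integral_eq_sub_of_hasDerivAt (fun t _ => h1 t) (γ.int_fr _ _)]
      have h2 : γ.e 1 = γ.e 0 := by
        have := γ.periodic 0
        rwa [zero_add] at this
      rw [h2, sub_self]
  exact hle hs

/-- A cocycle with nonzero regulator has a nonzero class. -/
theorem Path.not_mem {s : FS A} (h : γ.reg s ≠ 0) : s ∉ Rels A := fun hs => h (γ.reg_of_mem hs)

end reg

end Pool.Agent.N65.TK
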