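import Pool.Agent.N65.TK.Alg
set_option autoImplicit false

/-!
The residues of `alpha` vanish.
-/

namespace Pool.Agent.N65.TK

open scoped WithZero

section val

variable {L : Type*} [Field L] (v : Valuation L ℤᵐ⁰)

theorem one_lt_val_pair {f : Lˣ} (h : v (f : L) ≠ 1) :
    1 < v ((1 - (f : L)) * (1 - ((f⁻¹ : Lˣ) : L))) := by
  rw [map_mul]
  have hinv : v ((f⁻¹ : Lˣ) : L) = (v (f : L))⁻¹ := by
    rw [Units.val_inv_eq_inv_val, map_inv₀]
  have h0 : 0 < v (f : L) := (Valuation.pos_iff _).2 f.ne_zero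
  rcases lt_or_gt_of_ne h with h1 | h1
  · have h2 : 1 < v ((f⁻¹ : Lˣ) : L) := by
      rw [hinv]
      exact (one_lt_inv₀ h0).2 h1
    rw [Valuation.map_one_sub_of_lt _ h1, Valuation.map_sub_eq_of_lt_right _ (by rwa [map_one]),
      one_mul]
    exact h2
  · have h2 : v ((f⁻¹ : Lˣ) : L) < 1 := by
      rw [hinv]
      exact (inv_lt_one₀ h0).2 h1
    rw [Valuation.map_one_sub_of_lt _ h2, Valuation.map_sub_eq_of_lt_right _ (by rwa [map_one]),
      mul_one]
    exact h1

theorem val_pair_eq_one {f : Lˣ} (h : v (f : L) = 1) (h' : v (1 - (f : L)) = 1) :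
    v ((1 - (f : L)) * (1 - ((f⁻¹ : Lˣ) : L))) = 1 := by
  have h2 : (1 - ((f⁻¹ : Lˣ) : L)) = -((1 - (f : L)) * ((f⁻¹ : Lˣ) : L)) := by
    have := f.mul_inv
    linear_combination -this
  rw [h2, map_mul, Valuation.map_neg, map_mul, h', one_mul, one_mul, Units.val_inv_eq_inv_val,
    map_inv₀, h, inv_one]

theorem val_torsion {a : L} {N : ℕ} (hN : 0 < N) (h : a ^ N = 1) : v a = 1 := by
  have h1 : v a ^ N = 1 := by rw [← map_pow, h, map_one]
  exact (pow_eq_one_iff.1 h1).resolve_right hN.ne'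

theorem redB_eq_zero {f : Pt L} (h : ¬ (v (f.1 : L) = 1 ∧ v (1 - (f.1 : L)) = 1)) :
    redB v f = 0 := by
  unfold redB
  rw [dif_neg]
  rintro ⟨u, x, hx, hu⟩
  apply h
  have key : ∀ y : v.valuationSubring, red v y ≠ 0 → v (y : L) = 1 := by
    intro y hy
    have hy' : IsLocalRing.residue v.valuationSubring y ≠ 0 := hy
    rw [IsLocalRing.residue_ne_zero_iff_isUnit] at hy'
    obtain ⟨w, hw⟩ := hy'
    have h1 : v ((w : v.valuationSubring) : L) ≤ 1 :=
      (v.mem_valuationSubring_iff _).1 (w : v.valuationSubring).2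
    have h2 : v (((w⁻¹ : (v.valuationSubring)ˣ) : v.valuationSubring) : L) ≤ 1 :=
      (v.mem_valuationSubring_iff _).1 ((w⁻¹ : (v.valuationSubring)ˣ) : v.valuationSubring).2
    have h3 : v ((w : v.valuationSubring) : L) *
        v (((w⁻¹ : (v.valuationSubring)ˣ) : v.valuationSubring) : L) = 1 := by
      rw [← map_mul, ← v.map_one]
      congr 1
      have := congrArg (Subtype.val) (w.mul_inv)
      exact this
    rw [← hw]
    refine le_antisymm h1 ?_
    rw [← h3]
    exact mul_le_of_le_one_right' h2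
  have hux : red v x ≠ 0 := by
    rw [hu]
    exact u.1.ne_zero
  have hux1 : red v (1 - x) ≠ 0 := by
    have h1 : red v (1 - x) = 1 - red v x := by
      unfold red
      rw [map_sub, map_one]
      rfl
    rw [h1, hu]
    exact u.2.ne_zero
  refine ⟨by rw [← hx]; exact key x hux, ?_⟩
  have := key (1 - x) hux1
  rw [← hx]
  exact this

end val

section curve

variable {K : Type*} [Field K] {r : ℕ} {C : Dat K r}

theorem bnd_alpha (hC : C.Admissible) {L : Type*} [Field L] (φ : C.Ring →+* L)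
    (v : Valuation L ℤᵐ⁰) : bnd v (FS.map φ (Dat.alpha hC)) = 0 := by
  set X : Lˣ := Units.map (φ : C.Ring →* L) (cx C) with hX
  set Y : Lˣ := Units.map (φ : C.Ring →* L) (cy C) with hY
  obtain ⟨a, ha⟩ : ∃ a : ℤ, v (X : L) = WithZero.exp a :=
    ⟨WithZero.log (v (X : L)), (WithZero.exp_log ((Valuation.ne_zero_iff v).2 X.ne_zero)).symm⟩
  obtain ⟨b, hb⟩ : ∃ b : ℤ, v (Y : L) = WithZero.exp b :=
    ⟨WithZero.log (v (Y : L)), (WithZero.exp_log ((Valuation.ne_zero_iff v).2 Y.ne_zero)).symm⟩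
  have hmn : ∀ (e : Kˣ) (k l : ℤ), (∃ N : ℕ, 0 < N ∧ e ^ N = 1) →
      v ((Units.map (φ : C.Ring →* L) (C.mn e k l) : Lˣ) : L) = WithZero.exp (k * a + l * b) := by
    rintro e k l ⟨N, hN, hN'⟩
    rw [mn_eq, map_mul, Units.val_mul, map_mul, map_mul, map_zpow, map_zpow, ← hX, ← hY,
      Units.val_mul, map_mul, Units.val_zpow_eq_zpow_val, Units.val_zpow_eq_zpow_val, map_zpow₀,
      map_zpow₀, ha, hb, WithZero.exp_add, ← WithZero.exp_zsmul, ← WithZero.exp_zsmul]
    have h0 : v ((Units.map (φ : C.Ring →* L) (C.mn e 0 0) : Lˣ) : L) = 1 := by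
      refine val_torsion v hN ?_
      have h1 : C.mn e 0 0 ^ N = 1 := by
        have := mn_zpow (C := C) e 0 0 N
        rw [zpow_natCast, zpow_natCast, hN', mul_zero, mn_one] at this
        exact this
      rw [← Units.val_pow_eq_pow_val, ← map_pow, h1, map_one, Units.val_one]
    rw [h0, one_mul, smul_eq_mul, smul_eq_mul]
  have heq : ∏ j, (v ((1 - ((Units.map (φ : C.Ring →* L) (Dat.pt hC j).1 : Lˣ) : L)) *
      (1 - (((Units.map (φ : C.Ring →* L) (Dat.pt hC j).1)⁻¹ : Lˣ) : L)))) ^ C.n j = 1 := by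
    have h1 := congrArg φ C.prod_eq_one
    rw [map_prod, map_one] at h1
    have h2 := congrArg v h1
    rw [map_prod, map_one] at h2
    rw [← h2]
    refine Finset.prod_congr rfl fun j _ => ?_
    rw [← map_pow]
    congr 1
    rw [map_pow, map_mul φ, map_sub φ, map_sub φ, map_one φ]
    rfl
  unfold Dat.alpha
  rw [map_sum, map_sum]
  refine Finset.sum_eq_zero fun j _ => ?_
  rw [map_smul, map_smul]
  unfold br FS.map bnd
  rw [Finsupp.lmapDomain_apply, Finsupp.mapDomain_single, Finsupp.linearCombination_single, one_smul]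
  have key : WithZero.log (v ((Units.map (φ : C.Ring →* L) (C.mn 1 (-C.l j) (C.k j)) : Lˣ) : L)) = 0
      ∨ redB v ((Dat.pt hC j).map φ) = 0 := by
    rw [hmn 1 _ _ ⟨1, one_pos, by simp⟩, WithZero.log_exp]
    by_contra hcon
    rw [not_or] at hcon
    obtain ⟨h1, h2⟩ := hcon
    have h3 : v (((Dat.pt hC j).map φ).1 : L) = 1 ∧ v (1 - (((Dat.pt hC j).map φ).1 : L)) = 1 := by
      by_contra h
      exact h2 (redB_eq_zero v h)
    have hk : C.k j * a + C.l j * b = 0 := by
      have h4 : v (((Dat.pt hC j).map φ).1 : L) = WithZero.exp (C.k j * a + C.l j * b) :=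
        hmn _ _ _ (hC.tors j)
      rw [h3.1, ← WithZero.exp_zero] at h4
      exact (WithZero.exp_injective h4).symm
    obtain ⟨i, hi⟩ : ∃ i : Fin r, i ≠ j := by
      have : Nontrivial (Fin r) := Fin.nontrivial_iff_two_le.2 hC.two
      exact exists_ne j
    have hne : ∀ i, i ≠ j → v ((Units.map (φ : C.Ring →* L) (Dat.pt hC i).1 : Lˣ) : L) ≠ 1 := by
      intro i hi h4
      have h5 : v ((Units.map (φ : C.Ring →* L) (Dat.pt hC i).1 : Lˣ) : L) =
          WithZero.exp (C.k i * a + C.l i * b) := hmn _ _ _ (hC.tors i)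
      rw [h4, ← WithZero.exp_zero] at h5
      have h6 := (WithZero.exp_injective h5).symm
      have h7 := hC.indep i j hi
      have ha0 : a = 0 := by
        have : (C.k i * C.l j - C.k j * C.l i) * a = 0 := by
          linear_combination C.l j * h6 - C.l i * hk
        exact (mul_eq_zero.1 this).resolve_left (sub_ne_zero.2 h7)
      have hb0 : b = 0 := by
        have : (C.k i * C.l j - C.k j * C.l i) * b = 0 := by
          linear_combination C.k i * hk - C.k j * h6
        exact (mul_eq_zero.1 this).resolve_left (sub_ne_zero.2 h7)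
      apply h1
      rw [ha0, hb0]
      ring
    have h8 : 1 < ∏ j, (v ((1 - ((Units.map (φ : C.Ring →* L) (Dat.pt hC j).1 : Lˣ) : L)) *
      (1 - (((Units.map (φ : C.Ring →* L) (Dat.pt hC j).1)⁻¹ : Lˣ) : L)))) ^ C.n j := by
      rw [← Finset.mul_prod_erase Finset.univ _ (Finset.mem_univ i)]
      refine lt_of_lt_of_le (one_lt_pow₀ (one_lt_val_pair v (hne i hi)) (hC.pos i).ne')
        (le_mul_of_one_le_right' (Finset.one_le_prod' fun i' _ => ?_))
      by_cases h9 : i' = j
      · subst h9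
        exact (one_pow (M := ℤᵐ⁰) _).symm.le.trans_eq (congrArg (· ^ C.n i')
          (val_pair_eq_one v (f := ((Dat.pt hC i').map φ).1) h3.1 h3.2).symm)
      · exact one_le_pow₀ (one_lt_val_pair v (hne i' h9)).le
    rw [heq] at h8
    exact lt_irrefl _ h8
  rcases key with h | h
  · show _ • (((WithZero.log (v ((Units.map (φ : C.Ring →* L) (C.mn 1 (-C.l j) (C.k j)) : Lˣ)
      : L)) : ℤ) : ℚ) • _) = _
    rw [h, Int.cast_zero, zero_smul, smul_zero]
  · show _ • (_ • redB v ((Dat.pt hC j).map φ)) = _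
    rw [h, smul_zero, smul_zero]

end curve

end Pool.Agent.N65.TK
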